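import Pool.Agent.H3.LU.Gap2

/-!
# LU Class: `P n / P m` depends only on the numbers of multiples of the prime powers `q ≤ k`
-/

set_option autoImplicit false

open Finset Pool.Agent.H3.LC

namespace Pool.Agent.H3.LU

/-- the number of multiples of `q` in the block -/
def u (k q n : ℕ) : ℕ := ((Icc (n + 1) (n + k)).filter (fun x => q ∣ x)).card

theorem u_le {k q n : ℕ} (hq : 0 < q) : u k q n ≤ k / q + 1 := card_multiples_le n k hq

theorem le_u {k q n : ℕ} (hq : 0 < q) : k / q ≤ u k q n := by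
  have h : ((range (k / q)).card) ≤ ((Icc (n + 1) (n + k)).filter (fun x => q ∣ x)).card := by
    refine card_le_card_of_injOn (fun j => q * (n / q + 1 + j)) ?_ ?_
    · intro j hj
      rw [coe_range, Set.mem_Iio] at hj
      rw [mem_coe, mem_filter, mem_Icc]
      have h1 : n < q * (n / q + 1) := Nat.lt_mul_div_succ n hq
      have h2 : q * (n / q) ≤ n := Nat.mul_div_le n q
      have h3 : q * (k / q) ≤ k := Nat.mul_div_le k q
      have h4 : q * (j + 1) ≤ q * (k / q) := Nat.mul_le_mul_left q hj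
      refine ⟨⟨?_, ?_⟩, Dvd.intro _ rfl⟩ <;> beta_reduce
      · have : q * (n / q + 1 + j) = q * (n / q + 1) + q * j := by ring
        rw [this]
        omega
      · have : q * (n / q + 1 + j) = q * (n / q) + q * (j + 1) := by ring
        rw [this]
        omega
    · intro i _ j _ hij
      simp only at hij
      have := Nat.eq_of_mul_eq_mul_left hq hij
      omega
  rwa [card_range] at h

/-- a prime power dividing an lcm divides one of the numbers -/
theorem primePow_dvd_lcm {p e : ℕ} (hp : p.Prime) (he : 1 ≤ e) (S : Finset ℕ)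
    (hS : ∀ x ∈ S, x ≠ 0) (h : p ^ e ∣ S.lcm id) : ∃ x ∈ S, p ^ e ∣ x := by
  classical
  induction S using Finset.induction_on with
  | empty =>
    rw [Finset.lcm_empty, Nat.dvd_one] at h
    have := Nat.one_lt_pow (by omega : e ≠ 0) hp.one_lt
    omega
  | insert a S ha ih =>
    rw [Finset.lcm_insert] at h
    have ha0 : a ≠ 0 := hS a (mem_insert_self _ _)
    have hS0 : ∀ x ∈ S, x ≠ 0 := fun x hx => hS x (mem_insert_of_mem hx)
    have hL0 : S.lcm id ≠ 0 := by
      rw [Ne, Finset.lcm_eq_zero_iff]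
      rintro ⟨x, hx, h0⟩
      exact hS0 x hx h0
    have h1 : p ^ e ∣ Nat.lcm a (S.lcm id) := h
    rw [hp.pow_dvd_iff_le_factorization (Nat.lcm_ne_zero ha0 hL0), Nat.factorization_lcm ha0 hL0,
      Finsupp.sup_apply, le_sup_iff] at h1
    rcases h1 with h1 | h1
    · exact ⟨a, mem_insert_self _ _, (hp.pow_dvd_iff_le_factorization ha0).2 h1⟩
    · obtain ⟨x, hx, hxd⟩ := ih hS0 ((hp.pow_dvd_iff_le_factorization hL0).2 h1)
      exact ⟨x, mem_insert_of_mem hx, hxd⟩

theorem u_pos_iff {k q n : ℕ} (hq : IsPrimePow q) : 0 < u k q n ↔ q ∣ M n k := by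
  obtain ⟨p, e, hp, he, rfl⟩ := (isPrimePow_nat_iff q).1 hq
  unfold u
  rw [card_pos]
  constructor
  · rintro ⟨x, hx⟩
    rw [mem_filter] at hx
    exact hx.2.trans (Finset.dvd_lcm (f := id) hx.1)
  · intro h
    obtain ⟨x, hx, hd⟩ := primePow_dvd_lcm hp he (Icc (n + 1) (n + k))
      (fun x hx => by rw [mem_Icc] at hx; omega) h
    exact ⟨x, mem_filter.2 ⟨hx, hd⟩⟩

theorem u_large {k q n m : ℕ} (hq : IsPrimePow q) (hk : k < q) (h : M m k = M n k) :
    u k q m = u k q n := by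
  have h0 : k / q = 0 := Nat.div_eq_of_lt hk
  have h1 := u_le (k := k) (n := n) hq.pos
  have h2 := u_le (k := k) (n := m) hq.pos
  have h3 := u_pos_iff (k := k) (n := n) hq
  have h4 := u_pos_iff (k := k) (n := m) hq
  rw [h] at h4
  rw [h0] at h1 h2
  have h5 : 0 < u k q n ↔ 0 < u k q m := h3.trans h4.symm
  rcases Nat.eq_zero_or_pos (u k q n) with h6 | h6
  · rcases Nat.eq_zero_or_pos (u k q m) with h7 | h7
    · omega
    · have := h5.2 h7; omega
  · have := h5.1 h6; omega

theorem log_P {k n Q : ℕ} (hQ : n + k ≤ Q) :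
    Real.log (P n k) = ∑ q ∈ Icc 1 Q, (u k q n : ℝ) * ArithmeticFunction.vonMangoldt q := by
  have h1 : (P n k : ℝ) = ∏ x ∈ Icc (n + 1) (n + k), (x : ℝ) := by
    rw [P_eq]
    refine prod_bij (fun i _ => n + 1 + i) ?_ ?_ ?_ ?_
    · intro i hi
      rw [mem_range] at hi
      rw [mem_Icc]
      omega
    · intro i _ j _ hij
      omega
    · intro x hx
      rw [mem_Icc] at hx
      exact ⟨x - (n + 1), mem_range.2 (by omega), by omega⟩
    · intro i _
      push_cast
      ring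
  rw [h1, Real.log_prod (fun x hx => by
    rw [mem_Icc] at hx
    exact Nat.cast_ne_zero.2 (by omega))]
  have h2 : ∀ x ∈ Icc (n + 1) (n + k), Real.log (x : ℝ) =
      ∑ q ∈ Icc 1 Q, if q ∣ x then ArithmeticFunction.vonMangoldt q else 0 := by
    intro x hx
    rw [mem_Icc] at hx
    rw [← ArithmeticFunction.vonMangoldt_sum, ← sum_filter]
    refine sum_congr ?_ fun _ _ => rfl
    ext q
    rw [Nat.mem_divisors, mem_filter, mem_Icc]
    constructor
    · rintro ⟨hd, hx0⟩
      have := Nat.le_of_dvd (by omega) hd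
      exact ⟨⟨Nat.pos_of_dvd_of_pos hd (by omega), by omega⟩, hd⟩
    · rintro ⟨_, hd⟩
      exact ⟨hd, by omega⟩
  rw [sum_congr rfl h2, sum_comm]
  refine sum_congr rfl fun q _ => ?_
  rw [← sum_filter, sum_const, nsmul_eq_mul]
  rfl

/-- the class determines `P n / P m` -/
theorem class_eq {k n1 m1 n2 m2 : ℕ} (s1 : M m1 k = M n1 k) (s2 : M m2 k = M n2 k)
    (h : ∀ q ∈ (Icc 1 k).filter IsPrimePow,
      (u k q n1 : ℤ) - u k q m1 = (u k q n2 : ℤ) - u k q m2) :
    P n1 k * P m2 k = P n2 k * P m1 k := by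
  have hsum : Real.log (P n1 k) + Real.log (P m2 k) = Real.log (P n2 k) + Real.log (P m1 k) := by
    rw [log_P (Q := n1 + m1 + n2 + m2 + k) (by omega : n1 + k ≤ n1 + m1 + n2 + m2 + k),
      log_P (Q := n1 + m1 + n2 + m2 + k) (by omega : m1 + k ≤ n1 + m1 + n2 + m2 + k),
      log_P (Q := n1 + m1 + n2 + m2 + k) (by omega : n2 + k ≤ n1 + m1 + n2 + m2 + k),
      log_P (Q := n1 + m1 + n2 + m2 + k) (by omega : m2 + k ≤ n1 + m1 + n2 + m2 + k),
      ← sum_add_distrib, ← sum_add_distrib]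
    refine sum_congr rfl fun q hq => ?_
    rw [mem_Icc] at hq
    by_cases hpp : IsPrimePow q
    · rcases le_or_gt q k with hqk | hqk
      · have h1 := h q (mem_filter.2 ⟨mem_Icc.2 ⟨hq.1, hqk⟩, hpp⟩)
        have h2 : (u k q n1 : ℝ) - u k q m1 = (u k q n2 : ℝ) - u k q m2 := by exact_mod_cast h1
        linear_combination (ArithmeticFunction.vonMangoldt q) * h2
      · rw [u_large hpp hqk s1, u_large hpp hqk s2]
        ring
    · rw [ArithmeticFunction.vonMangoldt_eq_zero_iff.2 hpp]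
      ring
  have p1 : (0 : ℝ) < P n1 k := Nat.cast_pos.2 (P_pos _ _)
  have p2 : (0 : ℝ) < P m2 k := Nat.cast_pos.2 (P_pos _ _)
  have p3 : (0 : ℝ) < P n2 k := Nat.cast_pos.2 (P_pos _ _)
  have p4 : (0 : ℝ) < P m1 k := Nat.cast_pos.2 (P_pos _ _)
  rw [← Real.log_mul p1.ne' p2.ne', ← Real.log_mul p3.ne' p4.ne'] at hsum
  have := Real.log_injOn_pos (Set.mem_Ioi.2 (mul_pos p1 p2)) (Set.mem_Ioi.2 (mul_pos p3 p4)) hsum
  exact_mod_cast this

end Pool.Agent.H3.LU
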