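import Pool.Agent.H3.LU.Class

/-!
# LU Count: the number of solutions for a given `k`, uniformly in `k`
-/

set_option autoImplicit false

open Finset Pool.Agent.H3.LC

namespace Pool.Agent.H3.LU

/-- the prime powers up to `k` -/
noncomputable def pp (k : ℕ) : Finset ℕ := (Icc 1 k).filter IsPrimePow

theorem log_sq_le {x : ℝ} (hx : 1 ≤ x) : Real.log x ^ 2 ≤ 16 * Real.sqrt x := by
  have h0 : 0 ≤ Real.log x := Real.log_nonneg hx
  have h1 := Real.log_le_rpow_div (by linarith : 0 ≤ x) (by norm_num : (0 : ℝ) < 1 / 4)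
  have h2 : Real.log x ≤ 4 * x ^ (1 / 4 : ℝ) := by
    have e : x ^ (1 / 4 : ℝ) / (1 / 4) = 4 * x ^ (1 / 4 : ℝ) := by ring
    linarith
  have h3 : (x ^ (1 / 4 : ℝ)) ^ 2 = Real.sqrt x := by
    rw [← Real.rpow_natCast, ← Real.rpow_mul (by linarith), Real.sqrt_eq_rpow]
    norm_num
  calc Real.log x ^ 2 ≤ (4 * x ^ (1 / 4 : ℝ)) ^ 2 := pow_le_pow_left₀ h0 h2 2
    _ = 16 * (x ^ (1 / 4 : ℝ)) ^ 2 := by ring
    _ = 16 * Real.sqrt x := by rw [h3]

theorem card_pp_le {k : ℕ} (hk : 2 ≤ k) : ((pp k).card : ℝ) ≤ 48 * ((k : ℝ) / Real.log k) := by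
  classical
  have hk2 : (2 : ℝ) ≤ k := by exact_mod_cast hk
  have hlog : 0 < Real.log k := Real.log_pos (by linarith)
  have hl2 := Real.log_two_gt_d9
  have hl2' := Real.log_two_lt_d9
  -- large prime
  have hA : (((pp k).filter (fun q => k < q.minFac ^ 2)).card : ℝ) * (Real.log k / 2) ≤
      (Real.log 4 + 4) * k := by
    have h1 := Chebyshev.psi_le_const_mul_self (x := (k : ℝ)) (Nat.cast_nonneg k)
    refine le_trans ?_ h1
    unfold Chebyshev.psi
    rw [Nat.floor_natCast]
    have h2 : (((pp k).filter (fun q => k < q.minFac ^ 2)).card : ℝ) * (Real.log k / 2) ≤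
        ∑ q ∈ (pp k).filter (fun q => k < q.minFac ^ 2), ArithmeticFunction.vonMangoldt q := by
      rw [← nsmul_eq_mul]
      refine card_nsmul_le_sum _ _ _ fun q hq => ?_
      rw [mem_filter, pp, mem_filter] at hq
      rw [ArithmeticFunction.vonMangoldt_apply, if_pos hq.1.2]
      have h3 : (k : ℝ) ≤ (q.minFac : ℝ) ^ 2 := by exact_mod_cast hq.2.le
      have h4 := Real.log_le_log (by linarith) h3
      rw [Real.log_pow] at h4
      push_cast at h4
      linarith
    refine h2.trans ?_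
    refine sum_le_sum_of_subset_of_nonneg ?_ fun _ _ _ => ArithmeticFunction.vonMangoldt_nonneg
    intro q hq
    rw [mem_filter, pp, mem_filter, mem_Icc] at hq
    rw [mem_Ioc]
    omega
  -- small prime
  have hB : ((pp k).filter (fun q => ¬ k < q.minFac ^ 2)).card ≤ Nat.sqrt k * Nat.log 2 k := by
    have h1 : ((pp k).filter (fun q => ¬ k < q.minFac ^ 2)).card ≤
        ((Icc 1 (Nat.sqrt k)) ×ˢ (Icc 1 (Nat.log 2 k))).card := by
      refine card_le_card_of_injOn (fun q => (q.minFac, q.factorization q.minFac)) ?_ ?_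
      · intro q hq
        rw [mem_coe, mem_filter, pp, mem_filter, mem_Icc] at hq
        obtain ⟨⟨⟨hq1, hqk⟩, hpp⟩, hs⟩ := hq
        have hq1' : q ≠ 1 := hpp.ne_one
        have hmp := Nat.minFac_prime hq1'
        have hpw := hpp.minFac_pow_factorization_eq
        rw [mem_coe, mem_product, mem_Icc, mem_Icc]
        refine ⟨⟨hmp.pos, ?_⟩, ?_, ?_⟩
        · change q.minFac ≤ Nat.sqrt k
          rw [Nat.le_sqrt']
          exact not_lt.1 hs
        · change 1 ≤ q.factorization q.minFac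
          by_contra hcon
          have h0 : q.factorization q.minFac = 0 := by omega
          rw [h0, pow_zero] at hpw
          exact hq1' hpw.symm
        · change q.factorization q.minFac ≤ Nat.log 2 k
          refine Nat.le_log_of_pow_le (by norm_num) ?_
          calc 2 ^ (q.factorization q.minFac) ≤ q.minFac ^ (q.factorization q.minFac) :=
                Nat.pow_le_pow_left hmp.two_le _
            _ = q := hpw
            _ ≤ k := hqk
      · intro q hq r hr hqr
        rw [mem_coe, mem_filter, pp, mem_filter] at hq hr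
        have e1 := hq.1.2.minFac_pow_factorization_eq
        have e2 := hr.1.2.minFac_pow_factorization_eq
        rw [Prod.mk.injEq] at hqr
        rw [← e1, ← e2, hqr.1]
        rw [hqr.1] at hqr
        rw [hqr.2]
    rw [card_product, Nat.card_Icc, Nat.card_Icc] at h1
    simpa using h1
  have hsplit : (pp k).card = ((pp k).filter (fun q => k < q.minFac ^ 2)).card +
      ((pp k).filter (fun q => ¬ k < q.minFac ^ 2)).card :=
    (card_filter_add_card_filter_not _).symm
  -- real bounds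
  have hA' : (((pp k).filter (fun q => k < q.minFac ^ 2)).card : ℝ) ≤
      11 * ((k : ℝ) / Real.log k) := by
    have h4 : Real.log 4 = 2 * Real.log 2 := by
      rw [show (4 : ℝ) = 2 ^ 2 by norm_num, Real.log_pow]
      norm_num
    rw [← mul_div_assoc, le_div_iff₀ hlog]
    have h5 : (Real.log 4 + 4) * k ≤ 11 / 2 * k := by
      refine mul_le_mul_of_nonneg_right ?_ (by linarith)
      rw [h4]
      linarith
    linarith
  have hB' : (((pp k).filter (fun q => ¬ k < q.minFac ^ 2)).card : ℝ) ≤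
      32 * ((k : ℝ) / Real.log k) := by
    have h1 : (((pp k).filter (fun q => ¬ k < q.minFac ^ 2)).card : ℝ) ≤
        (Nat.sqrt k : ℝ) * (Nat.log 2 k : ℝ) := by exact_mod_cast hB
    have h2 : (Nat.sqrt k : ℝ) ≤ Real.sqrt k := Real.nat_sqrt_le_real_sqrt
    have h3 : (Nat.log 2 k : ℝ) ≤ 2 * Real.log k := by
      have h3' : (Nat.log 2 k : ℝ) * Real.log 2 ≤ Real.log k := by
        have h5 : (2 : ℝ) ^ (Nat.log 2 k) ≤ k := by
          exact_mod_cast Nat.pow_log_le_self 2 (by omega)
        have h6 := Real.log_le_log (by positivity) h5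
        rwa [Real.log_pow] at h6
      have h7 : (0 : ℝ) ≤ (Nat.log 2 k : ℝ) := Nat.cast_nonneg _
      nlinarith
    have h4 := log_sq_le (by linarith : (1 : ℝ) ≤ (k : ℝ))
    have h5 : Real.sqrt k * Real.sqrt k = k := Real.mul_self_sqrt (by linarith)
    have h6 : 0 ≤ Real.sqrt k := Real.sqrt_nonneg _
    rw [← mul_div_assoc, le_div_iff₀ hlog]
    calc (((pp k).filter (fun q => ¬ k < q.minFac ^ 2)).card : ℝ) * Real.log k
        ≤ (Real.sqrt k * (2 * Real.log k)) * Real.log k :=
          mul_le_mul_of_nonneg_right (h1.trans (mul_le_mul h2 h3 (Nat.cast_nonneg _) h6)) hlog.le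
      _ = 2 * (Real.sqrt k * Real.log k ^ 2) := by ring
      _ ≤ 2 * (Real.sqrt k * (16 * Real.sqrt k)) := by
          have := mul_le_mul_of_nonneg_left h4 h6
          linarith
      _ = 32 * (Real.sqrt k * Real.sqrt k) := by ring
      _ = 32 * k := by rw [h5]
  have hfrac : 0 ≤ (k : ℝ) / Real.log k := by positivity
  rw [hsplit, Nat.cast_add]
  linarith

/-- the class vector -/
noncomputable def cls (k : ℕ) (p : ℕ × ℕ) : {x // x ∈ pp k} → ℤ :=
  fun q => (u k q.1 p.1 : ℤ) - u k q.1 p.2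

theorem cls_mem (k : ℕ) (p : ℕ × ℕ) :
    cls k p ∈ Fintype.piFinset (fun _ : {x // x ∈ pp k} => Icc (-1 : ℤ) 1) := by
  rw [Fintype.mem_piFinset]
  intro q
  have hq : 0 < q.1 := by
    have h : q.1 ∈ (Icc 1 k).filter IsPrimePow := q.2
    rw [mem_filter, mem_Icc] at h
    omega
  have h1 := u_le (k := k) (n := p.1) hq
  have h2 := u_le (k := k) (n := p.2) hq
  have h3 := le_u (k := k) (n := p.1) hq
  have h4 := le_u (k := k) (n := p.2) hq
  rw [mem_Icc]
  unfold cls
  omega

open scoped Classical in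
/-- the solutions with `n ≤ N` -/
noncomputable def sols (k N : ℕ) : Finset (ℕ × ℕ) :=
  (range (N + 1) ×ˢ range (256 * (N + k) + 1)).filter (fun p => Sol p.1 k p.2)

theorem mem_sols {k N : ℕ} {p : ℕ × ℕ} : p ∈ sols k N ↔ p.1 ≤ N ∧ Sol p.1 k p.2 := by
  classical
  unfold sols
  rw [mem_filter, mem_product, mem_range, mem_range]
  constructor
  · rintro ⟨⟨h1, _⟩, h⟩
    exact ⟨by omega, h⟩
  · rintro ⟨h1, h⟩
    have := sol_ratio h
    exact ⟨⟨by omega, by omega⟩, h⟩

theorem card_sols_small (k N : ℕ) :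
    ((sols k N).filter (fun p => p.1 < k)).card ≤ k * (512 * k) := by
  have h : (sols k N).filter (fun p => p.1 < k) ⊆ range k ×ˢ range (512 * k) := by
    intro p hp
    rw [mem_filter, mem_sols] at hp
    obtain ⟨⟨_, h⟩, hpk⟩ := hp
    have h1 := sol_ratio h
    obtain ⟨hk, h2, _⟩ := h
    rw [mem_product, mem_range, mem_range]
    omega
  have := card_le_card h
  rwa [card_product, card_range, card_range] at this

theorem card_sols_large {k N : ℕ} (hk : 2 ≤ k) (hN : 2 ≤ N) :
    ((sols k N).filter (fun p => ¬ p.1 < k)).card ≤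
      3 ^ (pp k).card * (⌊577 * (k : ℝ) ^ 2 * (3 * Real.log N)⌋₊ + 1) := by
  classical
  have h : ((sols k N).filter (fun p => ¬ p.1 < k)).card ≤
      ((Fintype.piFinset (fun _ : {x // x ∈ pp k} => Icc (-1 : ℤ) 1)) ×ˢ
        range (⌊577 * (k : ℝ) ^ 2 * (3 * Real.log N)⌋₊ + 1)).card := by
    refine card_le_card_of_injOn (fun p => (cls k p, idx k p.1)) ?_ ?_
    · intro p hp
      rw [mem_coe, mem_filter, mem_sols] at hp
      obtain ⟨⟨h1, h2⟩, h3⟩ := hp
      rw [mem_coe, mem_product, mem_range]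
      refine ⟨cls_mem k p, ?_⟩
      have h4 := idx_le (n := p.1) (k := k) hN (by omega) h1
      have h5 := Nat.le_floor h4
      exact Nat.lt_succ_of_le h5
    · intro p hp r hr hpr
      rw [mem_coe, mem_filter, mem_sols] at hp hr
      obtain ⟨⟨h1, h2⟩, h3⟩ := hp
      obtain ⟨⟨h4, h5⟩, h6⟩ := hr
      rw [Prod.mk.injEq] at hpr
      have hcl : P p.1 k * P r.2 k = P r.1 k * P p.2 k := by
        refine class_eq h2.2.2 h5.2.2 fun q hq => ?_
        have := congrFun hpr.1 ⟨q, hq⟩
        exact this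
      have := idx_inj hk (not_lt.1 h3) (not_lt.1 h6) h2 h5 hcl hpr.2
      exact Prod.ext this.1 this.2
  rw [card_product, card_range, Fintype.card_piFinset, prod_const] at h
  have e1 : (Icc (-1 : ℤ) 1).card = 3 := by decide
  have e2 : (univ : Finset {x // x ∈ pp k}).card = (pp k).card := by
    rw [card_univ, Fintype.card_coe]
  rw [e1, e2] at h
  exact h

/-- the uniform count -/
theorem card_sols_le {k N : ℕ} (hk : 2 ≤ k) (hN : 2 ≤ N) :
    ((sols k N).card : ℝ) ≤ Real.exp (94 * ((k : ℝ) / Real.log k)) * Real.log N := by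
  have hk2 : (2 : ℝ) ≤ k := by exact_mod_cast hk
  have hN2 : (2 : ℝ) ≤ N := by exact_mod_cast hN
  have hlog : 0 < Real.log k := Real.log_pos (by linarith)
  have hl2 := Real.log_two_gt_d9
  have hlogN : 1 / 2 ≤ Real.log N := by
    have := Real.log_le_log (by norm_num) hN2
    linarith
  set T : ℝ := (k : ℝ) / Real.log k with hT
  have hT1 : 1 ≤ T := by
    rw [hT, le_div_iff₀ hlog, one_mul]
    have := Real.log_le_sub_one_of_pos (by linarith : (0 : ℝ) < k)
    linarith
  have h1 := card_sols_small k N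
  have h2 := card_sols_large hk hN
  have hsplit : (sols k N).card = ((sols k N).filter (fun p => p.1 < k)).card +
      ((sols k N).filter (fun p => ¬ p.1 < k)).card :=
    (card_filter_add_card_filter_not _).symm
  have h3 : ((sols k N).card : ℝ) ≤ (k : ℝ) * (512 * k) +
      3 ^ (pp k).card * (577 * (k : ℝ) ^ 2 * (3 * Real.log N) + 1) := by
    rw [hsplit, Nat.cast_add]
    refine add_le_add (by exact_mod_cast h1) ?_
    have h4 : (((sols k N).filter (fun p => ¬ p.1 < k)).card : ℝ) ≤
        3 ^ (pp k).card * ((⌊577 * (k : ℝ) ^ 2 * (3 * Real.log N)⌋₊ : ℝ) + 1) := by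
      exact_mod_cast h2
    refine h4.trans (mul_le_mul_of_nonneg_left ?_ (by positivity))
    have := Nat.floor_le (a := 577 * (k : ℝ) ^ 2 * (3 * Real.log N)) (by positivity)
    linarith
  -- collect
  have h5 : (1 : ℝ) ≤ 3 ^ (pp k).card := one_le_pow₀ (by norm_num)
  have hk4 : (4 : ℝ) ≤ (k : ℝ) ^ 2 := by nlinarith
  have h6 : (k : ℝ) * (512 * k) +
      3 ^ (pp k).card * (577 * (k : ℝ) ^ 2 * (3 * Real.log N) + 1) ≤
      3 ^ (pp k).card * (2800 * (k : ℝ) ^ 2 * Real.log N) := by
    have e1 : (k : ℝ) * (512 * k) ≤ 3 ^ (pp k).card * (1024 * (k : ℝ) ^ 2 * Real.log N) := by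
      calc (k : ℝ) * (512 * k) = 1 * (1024 * (k : ℝ) ^ 2 * (1 / 2)) := by ring
        _ ≤ 3 ^ (pp k).card * (1024 * (k : ℝ) ^ 2 * Real.log N) :=
          mul_le_mul h5 (mul_le_mul_of_nonneg_left hlogN (by positivity)) (by positivity)
            (by positivity)
    have e2 : (1 : ℝ) ≤ (k : ℝ) ^ 2 * Real.log N := by nlinarith
    have e3 : 577 * (k : ℝ) ^ 2 * (3 * Real.log N) + 1 ≤ 1732 * (k : ℝ) ^ 2 * Real.log N := by
      nlinarith
    have e4 := mul_le_mul_of_nonneg_left e3 (by positivity : (0 : ℝ) ≤ 3 ^ (pp k).card)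
    have e5 : (0 : ℝ) ≤ 3 ^ (pp k).card * ((k : ℝ) ^ 2 * Real.log N) := by positivity
    nlinarith
  -- exponentials
  have g1 : (3 : ℝ) ^ (pp k).card ≤ Real.exp (54 * T) := by
    have e1 : (3 : ℝ) ≤ Real.exp (9 / 8) := by
      have h1 := Real.add_one_le_exp (1 / 8 : ℝ)
      have h2 := Real.exp_one_gt_d9
      have e : Real.exp (9 / 8) = Real.exp 1 * Real.exp (1 / 8) := by
        rw [← Real.exp_add]
        norm_num
      rw [e]
      nlinarith
    have e2 := card_pp_le hk
    calc (3 : ℝ) ^ (pp k).card ≤ (Real.exp (9 / 8)) ^ (pp k).card :=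
          pow_le_pow_left₀ (by norm_num) e1 _
      _ = Real.exp ((pp k).card * (9 / 8)) := by rw [← Real.exp_nat_mul]
      _ ≤ Real.exp (54 * T) := by
          refine Real.exp_le_exp.2 ?_
          linarith
  have g2 : (2800 : ℝ) ≤ Real.exp (8 * T) := by
    have e1 : (2.7 : ℝ) ≤ Real.exp 1 := by
      have := Real.exp_one_gt_d9
      linarith
    have e2 : Real.exp (8 * T) ≥ Real.exp 1 ^ 8 := by
      rw [← Real.exp_nat_mul]
      refine Real.exp_le_exp.2 ?_
      push_cast
      linarith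
    have e3 : (2.7 : ℝ) ^ 8 ≤ Real.exp 1 ^ 8 := pow_le_pow_left₀ (by norm_num) e1 8
    have e4 : (2800 : ℝ) ≤ (2.7 : ℝ) ^ 8 := by norm_num
    linarith
  have g3 : (k : ℝ) ^ 2 ≤ Real.exp (32 * T) := by
    have e1 : (k : ℝ) ^ 2 = Real.exp (2 * Real.log k) := by
      rw [mul_comm, Real.exp_mul, Real.exp_log (by linarith)]
      norm_num
    rw [e1]
    refine Real.exp_le_exp.2 ?_
    have e2 := log_sq_le (by linarith : (1 : ℝ) ≤ (k : ℝ))
    have e3 : Real.sqrt k ≤ k := by
      have h0 := Real.sqrt_nonneg (k : ℝ)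
      have h1 := Real.mul_self_sqrt (by linarith : (0 : ℝ) ≤ (k : ℝ))
      have h2 : 1 ≤ Real.sqrt k := Real.one_le_sqrt.2 (by linarith)
      nlinarith
    rw [hT, ← mul_div_assoc, le_div_iff₀ hlog]
    nlinarith
  calc ((sols k N).card : ℝ) ≤ 3 ^ (pp k).card * (2800 * (k : ℝ) ^ 2 * Real.log N) := h3.trans h6
    _ ≤ Real.exp (54 * T) * (Real.exp (8 * T) * Real.exp (32 * T) * Real.log N) := by
        refine mul_le_mul g1 ?_ (by positivity) (Real.exp_nonneg _)
        refine mul_le_mul_of_nonneg_right ?_ (by linarith)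
        exact mul_le_mul g2 g3 (by positivity) (Real.exp_nonneg _)
    _ = Real.exp (94 * T) * Real.log N := by
        rw [← Real.exp_add, ← mul_assoc, ← Real.exp_add]
        congr 2
        ring

end Pool.Agent.H3.LU
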