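import Pool.Agent.H3.LC.Arith

/-!
# LU Gap: the gap principle for `P(n1) P(m2) = P(n2) P(m1)`

`P n k = (n+1)(n+2)...(n+k)`.
-/

set_option autoImplicit false

open Finset

namespace Pool.Agent.H3.LU

/-- the product of the block -/
def P (n k : ℕ) : ℕ := (n + 1).ascFactorial k

theorem P_pos (n k : ℕ) : 0 < P n k := Nat.ascFactorial_pos _ _

theorem P_eq (n k : ℕ) : (P n k : ℝ) = ∏ i ∈ range k, ((n : ℝ) + 1 + i) := by
  unfold P
  rw [Nat.ascFactorial_eq_prod_range]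
  push_cast
  rfl

theorem P_lt {n m k : ℕ} (hk : 0 < k) (h : n < m) : P n k < P m k := by
  unfold P
  rw [Nat.ascFactorial_eq_prod_range, Nat.ascFactorial_eq_prod_range]
  apply prod_lt_prod_of_nonempty
  · intro i _; omega
  · intro i _; omega
  · exact nonempty_range_iff.2 hk.ne'

theorem P_sq (n k : ℕ) :
    ∏ i ∈ range k, ((2 * (n : ℝ) + k + 1) ^ 2 - ((k : ℝ) - 1 - 2 * i) ^ 2)
      = 4 ^ k * (P n k : ℝ) ^ 2 := by
  have h1 : ∀ i ∈ range k, ((2 * (n : ℝ) + k + 1) ^ 2 - ((k : ℝ) - 1 - 2 * i) ^ 2)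
      = 4 * (((n : ℝ) + 1 + i) * ((n : ℝ) + 1 + ((k - 1 - i : ℕ) : ℝ))) := by
    intro i hi
    have hi' := mem_range.1 hi
    have h2 : ((k - 1 - i : ℕ) : ℝ) = (k : ℝ) - 1 - i := by
      rw [Nat.cast_sub (by omega), Nat.cast_sub (by omega)]
      simp
    rw [h2]
    ring
  rw [prod_congr rfl h1, prod_mul_distrib, prod_const, card_range, prod_mul_distrib,
    prod_range_reflect (fun i => (n : ℝ) + 1 + i) k, ← P_eq]
  ring

theorem t_sq {k i : ℕ} (hi : i < k) : ((k : ℝ) - 1 - 2 * i) ^ 2 ≤ ((k : ℝ) - 1) ^ 2 := by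
  have h1 : (i : ℝ) ≤ (k : ℝ) - 1 := by
    have : ((i + 1 : ℕ) : ℝ) ≤ (k : ℝ) := by exact_mod_cast hi
    push_cast at this
    linarith
  have h0 : (0 : ℝ) ≤ i := Nat.cast_nonneg i
  nlinarith

/-- one-sided comparison: if `A_i ≥ B_i` for all `i` and `A_0 > B_0` the products differ -/
theorem prod_ne {k : ℕ} (hk : 0 < k) {A B : ℕ → ℝ} (hB : ∀ i ∈ range k, 0 < B i)
    (h : ∀ i ∈ range k, B i ≤ A i) (h0 : B 0 < A 0) : ∏ i ∈ range k, B i < ∏ i ∈ range k, A i :=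
  prod_lt_prod hB h ⟨0, mem_range.2 hk, h0⟩

/-- the products over the factors -/
theorem prod_eq {n1 m1 n2 m2 k : ℕ} (h : P n1 k * P m2 k = P n2 k * P m1 k) :
    ∏ i ∈ range k, (((2 * (n1 : ℝ) + k + 1) ^ 2 - ((k : ℝ) - 1 - 2 * i) ^ 2) *
        ((2 * (m2 : ℝ) + k + 1) ^ 2 - ((k : ℝ) - 1 - 2 * i) ^ 2))
      = ∏ i ∈ range k, (((2 * (n2 : ℝ) + k + 1) ^ 2 - ((k : ℝ) - 1 - 2 * i) ^ 2) *
        ((2 * (m1 : ℝ) + k + 1) ^ 2 - ((k : ℝ) - 1 - 2 * i) ^ 2)) := by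
  rw [prod_mul_distrib, prod_mul_distrib, P_sq, P_sq, P_sq, P_sq]
  have h1 : (P n1 k : ℝ) * P m2 k = P n2 k * P m1 k := by exact_mod_cast h
  calc (4 : ℝ) ^ k * (P n1 k : ℝ) ^ 2 * (4 ^ k * (P m2 k : ℝ) ^ 2)
      = 4 ^ k * 4 ^ k * ((P n1 k : ℝ) * P m2 k) ^ 2 := by ring
    _ = 4 ^ k * 4 ^ k * ((P n2 k : ℝ) * P m1 k) ^ 2 := by rw [h1]
    _ = _ := by ring

theorem X_gt {k : ℕ} (n : ℕ) : (k : ℝ) - 1 < 2 * (n : ℝ) + k + 1 := by
  have : (0 : ℝ) ≤ n := Nat.cast_nonneg n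
  linarith

theorem fac_pos {k i : ℕ} (hk : 1 ≤ k) (n : ℕ) (hi : i < k) :
    0 < (2 * (n : ℝ) + k + 1) ^ 2 - ((k : ℝ) - 1 - 2 * i) ^ 2 := by
  have h1 := t_sq hi
  have h2 := X_gt (k := k) n
  have h3 : (0 : ℝ) ≤ (k : ℝ) - 1 := by
    have : (1 : ℝ) ≤ k := by exact_mod_cast hk
    linarith
  nlinarith

/-- the sign principle -/
theorem sign_principle {n1 m1 n2 m2 k : ℕ} (hk : 2 ≤ k)
    (h : P n1 k * P m2 k = P n2 k * P m1 k) {X1 Y1 X2 Y2 D E : ℝ}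
    (hX1 : X1 = 2 * (n1 : ℝ) + k + 1) (hX2 : X2 = 2 * (n2 : ℝ) + k + 1)
    (hY1 : Y1 = 2 * (m1 : ℝ) + k + 1) (hY2 : Y2 = 2 * (m2 : ℝ) + k + 1)
    (hD : D = (X1 * Y2) ^ 2 - (X2 * Y1) ^ 2) (hE : E = X1 ^ 2 + Y2 ^ 2 - X2 ^ 2 - Y1 ^ 2) :
    |D| ≤ ((k : ℝ) - 1) ^ 2 * |E| ∧ (D = 0 → E = 0) := by
  have hp := prod_eq h
  rw [← hX1, ← hX2, ← hY1, ← hY2] at hp
  have hk0 : 0 < k := by omega
  have hk1 : (1 : ℝ) ≤ (k : ℝ) - 1 := by
    have : (2 : ℝ) ≤ k := by exact_mod_cast hk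
    linarith
  have pos1 : ∀ i ∈ range k, 0 < (X1 ^ 2 - ((k : ℝ) - 1 - 2 * (i : ℕ)) ^ 2) *
      (Y2 ^ 2 - ((k : ℝ) - 1 - 2 * (i : ℕ)) ^ 2) := by
    intro i hi
    rw [hX1, hY2]
    exact mul_pos (fac_pos (by omega) _ (mem_range.1 hi)) (fac_pos (by omega) _ (mem_range.1 hi))
  have pos2 : ∀ i ∈ range k, 0 < (X2 ^ 2 - ((k : ℝ) - 1 - 2 * (i : ℕ)) ^ 2) *
      (Y1 ^ 2 - ((k : ℝ) - 1 - 2 * (i : ℕ)) ^ 2) := by
    intro i hi
    rw [hX2, hY1]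
    exact mul_pos (fac_pos (by omega) _ (mem_range.1 hi)) (fac_pos (by omega) _ (mem_range.1 hi))
  -- the difference of the factors
  have diff : ∀ t : ℝ, (X1 ^ 2 - t) * (Y2 ^ 2 - t) - (X2 ^ 2 - t) * (Y1 ^ 2 - t) = D - t * E := by
    intro t
    rw [hD, hE]
    ring
  -- not all differences positive / negative
  have no1 : ¬ ((∀ i ∈ range k, 0 ≤ D - ((k : ℝ) - 1 - 2 * (i : ℕ)) ^ 2 * E) ∧
      0 < D - ((k : ℝ) - 1) ^ 2 * E) := by
    rintro ⟨h1, h2⟩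
    refine absurd hp (ne_of_gt (prod_ne hk0 pos2 (fun i hi => ?_) ?_))
    · have := diff (((k : ℝ) - 1 - 2 * (i : ℕ)) ^ 2)
      have := h1 i hi
      linarith
    · have := diff (((k : ℝ) - 1 - 2 * ((0 : ℕ) : ℝ)) ^ 2)
      have e : ((k : ℝ) - 1 - 2 * ((0 : ℕ) : ℝ)) ^ 2 = ((k : ℝ) - 1) ^ 2 := by
        rw [Nat.cast_zero]; ring
      rw [e] at this ⊢
      linarith
  have no2 : ¬ ((∀ i ∈ range k, D - ((k : ℝ) - 1 - 2 * (i : ℕ)) ^ 2 * E ≤ 0) ∧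
      D - ((k : ℝ) - 1) ^ 2 * E < 0) := by
    rintro ⟨h1, h2⟩
    refine absurd hp (ne_of_lt (prod_ne hk0 pos1 (fun i hi => ?_) ?_))
    · have := diff (((k : ℝ) - 1 - 2 * (i : ℕ)) ^ 2)
      have := h1 i hi
      linarith
    · have := diff (((k : ℝ) - 1 - 2 * ((0 : ℕ) : ℝ)) ^ 2)
      have e : ((k : ℝ) - 1 - 2 * ((0 : ℕ) : ℝ)) ^ 2 = ((k : ℝ) - 1) ^ 2 := by
        rw [Nat.cast_zero]; ring
      rw [e] at this ⊢
      linarith
  have tsq : ∀ i ∈ range k, 0 ≤ ((k : ℝ) - 1 - 2 * (i : ℕ)) ^ 2 ∧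
      ((k : ℝ) - 1 - 2 * (i : ℕ)) ^ 2 ≤ ((k : ℝ) - 1) ^ 2 :=
    fun i hi => ⟨sq_nonneg _, t_sq (mem_range.1 hi)⟩
  have hkk : (1 : ℝ) ≤ ((k : ℝ) - 1) ^ 2 := by nlinarith
  constructor
  · by_contra hcon
    rw [not_le] at hcon
    rcases le_or_gt 0 D with hD0 | hD0
    · rw [abs_of_nonneg hD0] at hcon
      apply no1
      have hE1 : E ≤ |E| := le_abs_self E
      have hE2 : 0 ≤ |E| := abs_nonneg E
      refine ⟨fun i hi => ?_, ?_⟩
      · obtain ⟨t0, t1⟩ := tsq i hi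
        have : ((k : ℝ) - 1 - 2 * (i : ℕ)) ^ 2 * E ≤ ((k : ℝ) - 1) ^ 2 * |E| :=
          (mul_le_mul_of_nonneg_left hE1 t0).trans (mul_le_mul_of_nonneg_right t1 hE2)
        linarith
      · have : ((k : ℝ) - 1) ^ 2 * E ≤ ((k : ℝ) - 1) ^ 2 * |E| :=
          mul_le_mul_of_nonneg_left hE1 (sq_nonneg _)
        linarith
    · rw [abs_of_neg hD0] at hcon
      apply no2
      have hE1 : -E ≤ |E| := neg_le_abs E
      have hE2 : 0 ≤ |E| := abs_nonneg E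
      refine ⟨fun i hi => ?_, ?_⟩
      · obtain ⟨t0, t1⟩ := tsq i hi
        have : ((k : ℝ) - 1 - 2 * (i : ℕ)) ^ 2 * (-E) ≤ ((k : ℝ) - 1) ^ 2 * |E| :=
          (mul_le_mul_of_nonneg_left hE1 t0).trans (mul_le_mul_of_nonneg_right t1 hE2)
        linarith
      · have : ((k : ℝ) - 1) ^ 2 * (-E) ≤ ((k : ℝ) - 1) ^ 2 * |E| :=
          mul_le_mul_of_nonneg_left hE1 (sq_nonneg _)
        linarith
  · intro hD0
    by_contra hE0
    rcases lt_or_gt_of_ne hE0 with hlt | hgt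
    · apply no1
      rw [hD0]
      refine ⟨fun i hi => ?_, ?_⟩
      · obtain ⟨t0, t1⟩ := tsq i hi
        nlinarith
      · nlinarith
    · apply no2
      rw [hD0]
      refine ⟨fun i hi => ?_, ?_⟩
      · obtain ⟨t0, t1⟩ := tsq i hi
        nlinarith
      · nlinarith

/-- real algebra of the gap principle -/
theorem gap_alg {X1 Y1 X2 Y2 e R : ℝ} (hX1 : 0 < X1) (hX : X1 < X2) (hY : Y1 < Y2)
    (h1 : X1 ≤ Y1) (h2 : X2 ≤ Y2) (he : 0 ≤ e) (he9 : 9 * e ≤ X1 ^ 2) (hR : Y1 ≤ R * X1)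
    (hdel : 1 ≤ |X1 * Y2 - X2 * Y1|)
    (hDE : |(X1 * Y2) ^ 2 - (X2 * Y1) ^ 2| ≤ e * |X1 ^ 2 + Y2 ^ 2 - X2 ^ 2 - Y1 ^ 2|) :
    X1 ≤ 9 / 8 * R * e * (X2 - X1) := by
  set S : ℝ := X1 * Y2 + X2 * Y1 with hS
  have hY1 : 0 < Y1 := lt_of_lt_of_le hX1 h1
  have hX2 : 0 < X2 := hX1.trans hX
  have hY2 : 0 < Y2 := hY1.trans hY
  have hSpos : 0 < S := by positivity
  have hR1 : 1 ≤ R := by
    by_contra hcon
    rw [not_le] at hcon
    nlinarith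
  set del : ℝ := |X1 * Y2 - X2 * Y1| with hdeldef
  have hDS : |(X1 * Y2) ^ 2 - (X2 * Y1) ^ 2| = del * S := by
    have : (X1 * Y2) ^ 2 - (X2 * Y1) ^ 2 = (X1 * Y2 - X2 * Y1) * S := by rw [hS]; ring
    rw [this, abs_mul, abs_of_pos hSpos]
  rw [hDS] at hDE
  set a : ℝ := X2 - X1 with ha
  set b : ℝ := Y2 - Y1 with hb
  have ha0 : 0 < a := by linarith
  have hb0 : 0 < b := by linarith
  have hEeq : X1 ^ 2 + Y2 ^ 2 - X2 ^ 2 - Y1 ^ 2 = b * (Y1 + Y2) - a * (X1 + X2) := by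
    rw [ha, hb]; ring
  rw [hEeq] at hDE
  set mx : ℝ := max a b with hmx
  have hSX : X1 * (Y1 + Y2) ≤ S := by rw [hS]; nlinarith
  have hE : |b * (Y1 + Y2) - a * (X1 + X2)| * X1 ≤ mx * S := by
    have e1 : b * (Y1 + Y2) * X1 ≤ mx * S := by
      have : b ≤ mx := le_max_right _ _
      calc b * (Y1 + Y2) * X1 = b * (X1 * (Y1 + Y2)) := by ring
        _ ≤ b * S := mul_le_mul_of_nonneg_left hSX hb0.le
        _ ≤ mx * S := mul_le_mul_of_nonneg_right this hSpos.le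
    have e2 : a * (X1 + X2) * X1 ≤ mx * S := by
      have : a ≤ mx := le_max_left _ _
      calc a * (X1 + X2) * X1 ≤ a * (X1 * (Y1 + Y2)) := by
            have : (X1 + X2) * X1 ≤ X1 * (Y1 + Y2) := by nlinarith
            nlinarith
        _ ≤ a * S := mul_le_mul_of_nonneg_left hSX ha0.le
        _ ≤ mx * S := mul_le_mul_of_nonneg_right this hSpos.le
    have e3 : 0 ≤ b * (Y1 + Y2) * X1 := by positivity
    have e4 : 0 ≤ a * (X1 + X2) * X1 := by positivity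
    rcases abs_cases (b * (Y1 + Y2) - a * (X1 + X2)) with ⟨h, _⟩ | ⟨h, _⟩
    · rw [h]; nlinarith
    · rw [h]; nlinarith
  have hmain : del * X1 ≤ e * mx := by
    have : (del * X1) * S ≤ (e * mx) * S := by
      calc (del * X1) * S = del * S * X1 := by ring
        _ ≤ e * |b * (Y1 + Y2) - a * (X1 + X2)| * X1 :=
            mul_le_mul_of_nonneg_right hDE hX1.le
        _ = e * (|b * (Y1 + Y2) - a * (X1 + X2)| * X1) := by ring
        _ ≤ e * (mx * S) := mul_le_mul_of_nonneg_left hE he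
        _ = (e * mx) * S := by ring
    exact le_of_mul_le_mul_right this hSpos
  have hX1le : X1 ≤ e * mx := by
    calc X1 = 1 * X1 := (one_mul _).symm
      _ ≤ del * X1 := mul_le_mul_of_nonneg_right hdel hX1.le
      _ ≤ e * mx := hmain
  have hmxle : mx ≤ 9 / 8 * R * a := by
    rcases le_or_gt b a with hba | hab
    · rw [hmx, max_eq_left hba]
      nlinarith
    · rw [hmx, max_eq_right hab.le] at hmain ⊢
      -- del * X1 ≤ e * b ≤ X1 ^ 2 / 9 * b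
      have h3 : del * X1 ≤ X1 ^ 2 / 9 * b := by nlinarith
      have h4 : del ≤ X1 * b / 9 := by
        have : del * X1 ≤ (X1 * b / 9) * X1 := by
          calc del * X1 ≤ X1 ^ 2 / 9 * b := h3
            _ = (X1 * b / 9) * X1 := by ring
        exact le_of_mul_le_mul_right this hX1
      have h5 : X1 * Y2 - X2 * Y1 = X1 * b - a * Y1 := by rw [ha, hb]; ring
      have h6 : X1 * b - a * Y1 ≤ del := by rw [hdeldef, h5]; exact le_abs_self _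
      have h7 : 8 / 9 * (X1 * b) ≤ a * (R * X1) := by
        have : a * Y1 ≤ a * (R * X1) := mul_le_mul_of_nonneg_left hR ha0.le
        linarith
      have h8 : X1 * b ≤ X1 * (9 / 8 * R * a) := by nlinarith
      exact le_of_mul_le_mul_left h8 hX1
  calc X1 ≤ e * mx := hX1le
    _ ≤ e * (9 / 8 * R * a) := mul_le_mul_of_nonneg_left hmxle he
    _ = 9 / 8 * R * e * a := by ring

end Pool.Agent.H3.LU
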