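import Pool.Agent.H3.LU.Gap

/-!
# LU Gap2: the gap principle for solutions, and the count inside one class
-/

set_option autoImplicit false

open Finset Pool.Agent.H3.LC

namespace Pool.Agent.H3.LU

theorem P_le {n m k : ℕ} (hk : 0 < k) (h : n ≤ m) : P n k ≤ P m k := by
  rcases h.eq_or_lt with rfl | h
  · exact le_rfl
  · exact (P_lt hk h).le

/-- inside one class `n` determines `m` -/
theorem class_inj {n m1 m2 k : ℕ} (hk : 0 < k) (h : P n k * P m2 k = P n k * P m1 k) : m1 = m2 := by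
  have h1 : P m2 k = P m1 k := Nat.eq_of_mul_eq_mul_left (P_pos n k) h
  rcases lt_trichotomy m1 m2 with h2 | h2 | h2
  · have := P_lt hk h2; omega
  · exact h2
  · have := P_lt hk h2; omega

theorem class_lt {n1 m1 n2 m2 k : ℕ} (hk : 0 < k) (h12 : n1 < n2)
    (h : P n1 k * P m2 k = P n2 k * P m1 k) : m1 < m2 := by
  by_contra hcon
  rw [not_lt] at hcon
  have h1 := P_lt hk h12
  have h2 := P_le hk hcon
  have h3 : P n1 k * P m2 k < P n2 k * P m1 k :=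
    mul_lt_mul'' h1 (lt_of_le_of_ne h2 (by
      rintro h4
      rw [h4] at h
      have := Nat.eq_of_mul_eq_mul_right (P_pos m1 k) h
      omega)) (Nat.zero_le _) (Nat.zero_le _)
  omega

/-- the gap principle -/
theorem gap {n1 m1 n2 m2 k : ℕ} (hk : 2 ≤ k) (hn : k ≤ n1) (h12 : n1 < n2) (s1 : Sol n1 k m1)
    (s2 : Sol n2 k m2) (h : P n1 k * P m2 k = P n2 k * P m1 k) :
    (2 * (n1 : ℝ) + k + 1) ≤ 576 * ((k : ℝ) - 1) ^ 2 *
      ((2 * (n2 : ℝ) + k + 1) - (2 * (n1 : ℝ) + k + 1)) := by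
  have hm := class_lt (by omega) h12 h
  have hr := sol_ratio s1
  obtain ⟨-, d1, -⟩ := s1
  obtain ⟨-, d2, -⟩ := s2
  have hk2 : (2 : ℝ) ≤ k := by exact_mod_cast hk
  have hn' : (k : ℝ) ≤ n1 := by exact_mod_cast hn
  have h12' : (n1 : ℝ) < n2 := by exact_mod_cast h12
  have hm' : (m1 : ℝ) < m2 := by exact_mod_cast hm
  have d1' : (n1 : ℝ) + k ≤ m1 := by exact_mod_cast d1
  have d2' : (n2 : ℝ) + k ≤ m2 := by exact_mod_cast d2
  have hr' : (m1 : ℝ) + k ≤ 256 * (n1 + k) := by exact_mod_cast hr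
  obtain ⟨hDE, hD0⟩ := sign_principle hk h (X1 := 2 * (n1 : ℝ) + k + 1)
    (Y1 := 2 * (m1 : ℝ) + k + 1) (X2 := 2 * (n2 : ℝ) + k + 1) (Y2 := 2 * (m2 : ℝ) + k + 1)
    rfl rfl rfl rfl rfl rfl
  have key := gap_alg (X1 := 2 * (n1 : ℝ) + k + 1)
    (Y1 := 2 * (m1 : ℝ) + k + 1) (X2 := 2 * (n2 : ℝ) + k + 1) (Y2 := 2 * (m2 : ℝ) + k + 1)
    (e := ((k : ℝ) - 1) ^ 2) (R := 512) (by linarith) (by linarith) (by linarith) (by linarith)
    (by linarith) (sq_nonneg _) (by nlinarith) (by linarith) ?_ hDE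
  · linarith
  · -- the integer `X1 Y2 - X2 Y1` is not zero
    have hcast : (2 * (n1 : ℝ) + k + 1) * (2 * (m2 : ℝ) + k + 1) -
        (2 * (n2 : ℝ) + k + 1) * (2 * (m1 : ℝ) + k + 1) =
        (((2 * (n1 : ℤ) + k + 1) * (2 * (m2 : ℤ) + k + 1) -
          (2 * (n2 : ℤ) + k + 1) * (2 * (m1 : ℤ) + k + 1) : ℤ) : ℝ) := by
      push_cast
      ring
    rw [hcast, ← Int.cast_abs]
    have hne : ((2 * (n1 : ℤ) + k + 1) * (2 * (m2 : ℤ) + k + 1) -
          (2 * (n2 : ℤ) + k + 1) * (2 * (m1 : ℤ) + k + 1) : ℤ) ≠ 0 := by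
      intro h0
      rw [h0] at hcast
      rw [Int.cast_zero] at hcast
      have e1 : ((2 * (n1 : ℝ) + k + 1) * (2 * (m2 : ℝ) + k + 1)) ^ 2 -
          ((2 * (n2 : ℝ) + k + 1) * (2 * (m1 : ℝ) + k + 1)) ^ 2 = 0 := by
        have : (2 * (n1 : ℝ) + k + 1) * (2 * (m2 : ℝ) + k + 1) =
          (2 * (n2 : ℝ) + k + 1) * (2 * (m1 : ℝ) + k + 1) := by linarith
        rw [this, sub_self]
      have e2 := hD0 e1
      set X1 : ℝ := 2 * (n1 : ℝ) + k + 1 with hX1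
      set Y1 : ℝ := 2 * (m1 : ℝ) + k + 1 with hY1
      set X2 : ℝ := 2 * (n2 : ℝ) + k + 1 with hX2
      set Y2 : ℝ := 2 * (m2 : ℝ) + k + 1 with hY2
      have e3 : X1 * Y2 = X2 * Y1 := by linarith
      have e4 : (X1 + Y2) ^ 2 = (X2 + Y1) ^ 2 := by linear_combination e2 + 2 * e3
      have p1 : 0 ≤ X1 + Y2 := by linarith
      have p2 : 0 ≤ X2 + Y1 := by linarith
      have e5 : X1 + Y2 = X2 + Y1 := by
        rcases sq_eq_sq_iff_eq_or_eq_neg.1 e4 with h' | h'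
        · exact h'
        · linarith
      have e6 : (X1 - X2) * (X1 - Y1) = 0 := by linear_combination X1 * e5 - e3
      rcases mul_eq_zero.1 e6 with h' | h'
      · linarith
      · linarith
    have := Int.one_le_abs hne
    exact_mod_cast this

/-- the logarithmic step -/
noncomputable def idx (k n : ℕ) : ℕ :=
  ⌊Real.log (2 * (n : ℝ) + k + 1) * (577 * (k : ℝ) ^ 2)⌋₊

theorem idx_ne {n1 m1 n2 m2 k : ℕ} (hk : 2 ≤ k) (hn : k ≤ n1) (h12 : n1 < n2) (s1 : Sol n1 k m1)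
    (s2 : Sol n2 k m2) (h : P n1 k * P m2 k = P n2 k * P m1 k) : idx k n1 ≠ idx k n2 := by
  have hg := gap hk hn h12 s1 s2 h
  have hk2 : (2 : ℝ) ≤ k := by exact_mod_cast hk
  have hn' : (k : ℝ) ≤ n1 := by exact_mod_cast hn
  have h12' : (n1 : ℝ) < n2 := by exact_mod_cast h12
  set X1 : ℝ := 2 * (n1 : ℝ) + k + 1 with hX1
  set X2 : ℝ := 2 * (n2 : ℝ) + k + 1 with hX2
  have hX1pos : 0 < X1 := by linarith
  have hX2pos : 0 < X2 := by linarith
  -- log X2 - log X1 = - log (X1/X2) ≥ 1 - X1/X2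
  have h1 : 1 - X1 / X2 ≤ Real.log X2 - Real.log X1 := by
    have h2 := Real.log_le_sub_one_of_pos (x := X1 / X2) (by positivity)
    rw [Real.log_div hX1pos.ne' hX2pos.ne'] at h2
    linarith
  have h2 : 1 ≤ (1 - X1 / X2) * (577 * (k : ℝ) ^ 2) := by
    have h3 : (1 - X1 / X2) * X2 = X2 - X1 := by field_simp
    have h4 : X2 ≤ (X2 - X1) * (577 * (k : ℝ) ^ 2) := by
      have h5 : X2 = (X2 - X1) + X1 := by ring
      have h6 : 0 < X2 - X1 := by linarith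
      have h7 : 576 * ((k : ℝ) - 1) ^ 2 + 1 ≤ 577 * (k : ℝ) ^ 2 := by nlinarith
      calc X2 = (X2 - X1) + X1 := h5
        _ ≤ (X2 - X1) + 576 * ((k : ℝ) - 1) ^ 2 * (X2 - X1) := by linarith
        _ = (X2 - X1) * (576 * ((k : ℝ) - 1) ^ 2 + 1) := by ring
        _ ≤ (X2 - X1) * (577 * (k : ℝ) ^ 2) := mul_le_mul_of_nonneg_left h7 h6.le
    have h8 : 1 * X2 ≤ ((1 - X1 / X2) * (577 * (k : ℝ) ^ 2)) * X2 := by
      calc 1 * X2 = X2 := one_mul _
        _ ≤ (X2 - X1) * (577 * (k : ℝ) ^ 2) := h4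
        _ = ((1 - X1 / X2) * X2) * (577 * (k : ℝ) ^ 2) := by rw [h3]
        _ = _ := by ring
    exact le_of_mul_le_mul_right h8 hX2pos
  have h3 : Real.log X1 * (577 * (k : ℝ) ^ 2) + 1 ≤ Real.log X2 * (577 * (k : ℝ) ^ 2) := by
    have h4 : (0 : ℝ) ≤ 577 * (k : ℝ) ^ 2 := by positivity
    have h5 := mul_le_mul_of_nonneg_right h1 h4
    linarith
  have hlog1 : 0 ≤ Real.log X1 := Real.log_nonneg (by linarith)
  have h0 : 0 ≤ Real.log X1 * (577 * (k : ℝ) ^ 2) := by positivity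
  intro heq
  unfold idx at heq
  rw [← hX1, ← hX2] at heq
  have h4 : ⌊Real.log X1 * (577 * (k : ℝ) ^ 2)⌋₊ + 1 ≤ ⌊Real.log X2 * (577 * (k : ℝ) ^ 2)⌋₊ := by
    rw [← Nat.floor_add_one h0]
    exact Nat.floor_le_floor h3
  omega

theorem idx_inj {n1 m1 n2 m2 k : ℕ} (hk : 2 ≤ k) (hn1 : k ≤ n1) (hn2 : k ≤ n2) (s1 : Sol n1 k m1)
    (s2 : Sol n2 k m2) (h : P n1 k * P m2 k = P n2 k * P m1 k) (hidx : idx k n1 = idx k n2) :
    n1 = n2 ∧ m1 = m2 := by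
  rcases lt_trichotomy n1 n2 with h12 | h12 | h12
  · exact absurd hidx (idx_ne hk hn1 h12 s1 s2 h)
  · subst h12
    exact ⟨rfl, class_inj (by omega) h⟩
  · exact absurd hidx.symm (idx_ne hk hn2 h12 s2 s1 h.symm)

theorem idx_le {n k N : ℕ} (hN : 2 ≤ N) (hkN : k ≤ N) (hn : n ≤ N) :
    (idx k n : ℝ) ≤ 577 * (k : ℝ) ^ 2 * (3 * Real.log N) := by
  unfold idx
  have hN2 : (2 : ℝ) ≤ N := by exact_mod_cast hN
  have hk' : (k : ℝ) ≤ N := by exact_mod_cast hkN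
  have hn' : (n : ℝ) ≤ N := by exact_mod_cast hn
  have hn0 : (0 : ℝ) ≤ n := Nat.cast_nonneg n
  have hk0 : (0 : ℝ) ≤ k := Nat.cast_nonneg k
  have h1 : 2 * (n : ℝ) + k + 1 ≤ (N : ℝ) ^ 3 := by
    have h0 : (0 : ℝ) ≤ N * ((N - 2) * (N + 2)) :=
      mul_nonneg (by linarith) (mul_nonneg (by linarith) (by linarith))
    have h0' : (N : ℝ) * ((N - 2) * (N + 2)) = (N : ℝ) ^ 3 - 4 * N := by ring
    linarith
  have h2 : Real.log (2 * (n : ℝ) + k + 1) ≤ 3 * Real.log N := by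
    have h3 := Real.log_le_log (by positivity) h1
    rw [Real.log_pow] at h3
    exact_mod_cast h3
  have h4 : 0 ≤ Real.log (2 * (n : ℝ) + k + 1) := Real.log_nonneg (by linarith)
  refine (Nat.floor_le (by positivity)).trans ?_
  rw [mul_comm]
  exact mul_le_mul_of_nonneg_left h2 (by positivity)

end Pool.Agent.H3.LU
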