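import Pool.Agent.H3.LU.Class

/-!
# LU Larger: Gallagher's larger sieve with prime powers
-/

set_option autoImplicit false

open Finset Pool.Agent.H3.LC

namespace Pool.Agent.H3.LU

/-- the number of congruent pairs -/
theorem pairs_ge {A : Finset ℕ} {q v : ℕ} (hv : (A.image (fun x => x % q)).card ≤ v) :
    (A.card : ℝ) ^ 2 ≤ v * (((A ×ˢ A).filter (fun p => p.1 % q = p.2 % q)).card : ℝ) := by
  classical
  have h1 : (A.card : ℝ) = ∑ c ∈ A.image (fun x => x % q),
      ((A.filter (fun x => x % q = c)).card : ℝ) := by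
    rw [card_eq_sum_card_image (fun x => x % q) A]
    push_cast
    rfl
  have h2 : (((A ×ˢ A).filter (fun p => p.1 % q = p.2 % q)).card : ℝ) =
      ∑ c ∈ A.image (fun x => x % q), ((A.filter (fun x => x % q = c)).card : ℝ) ^ 2 := by
    have h3 : ((A ×ˢ A).filter (fun p => p.1 % q = p.2 % q)).card =
        ∑ c ∈ A.image (fun x => x % q),
          (((A ×ˢ A).filter (fun p => p.1 % q = p.2 % q)).filter (fun p => p.1 % q = c)).card := by
      refine card_eq_sum_card_fiberwise (f := fun p : ℕ × ℕ => p.1 % q) ?_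
      intro p hp
      rw [mem_coe, mem_filter, mem_product] at hp
      rw [mem_coe, mem_image]
      exact ⟨p.1, hp.1.1, rfl⟩
    rw [h3]
    push_cast
    refine sum_congr rfl fun c _ => ?_
    have h4 : (((A ×ˢ A).filter (fun p => p.1 % q = p.2 % q)).filter (fun p => p.1 % q = c)) =
        (A.filter (fun x => x % q = c)) ×ˢ (A.filter (fun x => x % q = c)) := by
      ext p
      simp only [mem_filter, mem_product]
      constructor
      · rintro ⟨⟨⟨h1, h2⟩, h3⟩, h4⟩
        exact ⟨⟨h1, h4⟩, h2, by omega⟩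
      · rintro ⟨⟨h1, h2⟩, h3, h4⟩
        exact ⟨⟨⟨h1, h3⟩, by omega⟩, h2⟩
    rw [h4, card_product]
    push_cast
    ring
  rw [h1, h2]
  refine (sq_sum_le_card_mul_sum_sq).trans ?_
  refine mul_le_mul_of_nonneg_right (by exact_mod_cast hv) ?_
  exact sum_nonneg fun _ _ => sq_nonneg _

/-- Gallagher's larger sieve -/
theorem larger_sieve {A Q : Finset ℕ} {v : ℕ} {L : ℝ} (hL : 1 ≤ L) (hv0 : 0 < v)
    (hA : ∀ x ∈ A, ∀ y ∈ A, (x : ℝ) - y ≤ L)
    (hQ : ∀ q ∈ Q, (A.image (fun x => x % q)).card ≤ v) :
    (A.card : ℝ) * ((∑ q ∈ Q, ArithmeticFunction.vonMangoldt q) / v - Real.log L) ≤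
      ∑ q ∈ Q, ArithmeticFunction.vonMangoldt q := by
  classical
  set T : ℝ := ∑ q ∈ Q, ArithmeticFunction.vonMangoldt q with hT
  have hT0 : 0 ≤ T := sum_nonneg fun _ _ => ArithmeticFunction.vonMangoldt_nonneg
  have hv : (0 : ℝ) < v := Nat.cast_pos.2 hv0
  have hlogL : 0 ≤ Real.log L := Real.log_nonneg hL
  -- the weighted number of congruent pairs
  set W : ℝ := ∑ q ∈ Q, ArithmeticFunction.vonMangoldt q *
    (((A ×ˢ A).filter (fun p => p.1 % q = p.2 % q)).card : ℝ) with hW
  have low : T * (A.card : ℝ) ^ 2 ≤ v * W := by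
    rw [hT, hW, sum_mul, mul_sum]
    refine sum_le_sum fun q hq => ?_
    have h := mul_le_mul_of_nonneg_left (pairs_ge (hQ q hq))
      (ArithmeticFunction.vonMangoldt_nonneg (n := q))
    calc ArithmeticFunction.vonMangoldt q * (A.card : ℝ) ^ 2 ≤ _ := h
      _ = _ := by ring
  have up : W ≤ A.card * T + (A.card : ℝ) ^ 2 * Real.log L := by
    have h1 : W = ∑ p ∈ A ×ˢ A, ∑ q ∈ Q,
        if p.1 % q = p.2 % q then ArithmeticFunction.vonMangoldt q else 0 := by
      rw [hW, sum_comm]
      refine sum_congr rfl fun q _ => ?_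
      rw [← sum_filter, sum_const, nsmul_eq_mul, mul_comm]
    rw [h1]
    have h2 : ∀ p ∈ A ×ˢ A, (∑ q ∈ Q,
        if p.1 % q = p.2 % q then ArithmeticFunction.vonMangoldt q else 0) ≤
        (if p.1 = p.2 then T else 0) + Real.log L := by
      rintro ⟨x, y⟩ hp
      rw [mem_product] at hp
      simp only
      by_cases hxy : x = y
      · subst hxy
        simp only [if_true]
        rw [← hT]
        linarith
      · rw [if_neg hxy, zero_add]
        -- the distance
        have key : ∀ a b : ℕ, a ∈ A → b ∈ A → b < a → (∑ q ∈ Q,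
            if a % q = b % q then ArithmeticFunction.vonMangoldt q else 0) ≤ Real.log L := by
          intro a b ha hb hab
          have hd : a - b ≠ 0 := by omega
          have h3 : (∑ q ∈ Q, if a % q = b % q then ArithmeticFunction.vonMangoldt q else 0) ≤
              ∑ q ∈ (a - b).divisors, ArithmeticFunction.vonMangoldt q := by
            rw [← sum_filter]
            refine sum_le_sum_of_subset_of_nonneg ?_ fun _ _ _ =>
              ArithmeticFunction.vonMangoldt_nonneg
            intro q hq
            rw [mem_filter] at hq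
            rw [Nat.mem_divisors]
            exact ⟨(Nat.modEq_iff_dvd' hab.le).1 (Eq.symm hq.2), hd⟩
          rw [ArithmeticFunction.vonMangoldt_sum] at h3
          refine h3.trans (Real.log_le_log (Nat.cast_pos.2 (Nat.pos_of_ne_zero hd)) ?_)
          rw [Nat.cast_sub hab.le]
          exact hA a ha b hb
        rcases lt_or_gt_of_ne hxy with h | h
        · have := key y x hp.2 hp.1 h
          have e : (∑ q ∈ Q, if x % q = y % q then ArithmeticFunction.vonMangoldt q else 0) =
              ∑ q ∈ Q, if y % q = x % q then ArithmeticFunction.vonMangoldt q else 0 :=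
            sum_congr rfl fun q _ => by simp only [eq_comm]
          rw [e]
          exact this
        · exact key x y hp.1 hp.2 h
    refine (sum_le_sum h2).trans ?_
    rw [sum_add_distrib, sum_const, card_product, nsmul_eq_mul]
    have h3 : ∑ p ∈ A ×ˢ A, (if p.1 = p.2 then T else 0) = A.card * T := by
      rw [sum_product]
      have h4 : ∀ x ∈ A, ∑ y ∈ A, (if x = y then T else 0) = T := by
        intro x hx
        rw [sum_ite_eq, if_pos hx]
      rw [sum_congr rfl h4, sum_const, nsmul_eq_mul]
    rw [h3]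
    push_cast
    have : (A.card : ℝ) * A.card * Real.log L = (A.card : ℝ) ^ 2 * Real.log L := by ring
    linarith
  rcases Nat.eq_zero_or_pos A.card with h0 | h0
  · rw [h0, Nat.cast_zero, zero_mul]
    exact hT0
  · have hs : (0 : ℝ) < A.card := Nat.cast_pos.2 h0
    have h5 : T * (A.card : ℝ) ^ 2 ≤ v * (A.card * T + (A.card : ℝ) ^ 2 * Real.log L) :=
      low.trans (mul_le_mul_of_nonneg_left up hv.le)
    have h6 : (A.card : ℝ) * (T - v * Real.log L) ≤ v * T := by
      have h7 : (A.card : ℝ) * ((A.card : ℝ) * (T - v * Real.log L)) ≤ A.card * (v * T) := by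
        nlinarith
      exact le_of_mul_le_mul_left h7 hs
    have h8 : (A.card : ℝ) * (T / v - Real.log L) = (A.card : ℝ) * (T - v * Real.log L) / v := by
      field_simp
    rw [h8, div_le_iff₀ hv]
    linarith

end Pool.Agent.H3.LU
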