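import Pool.Agent.H3.LU.Count

/-!
# LU Main: the number of all solutions with `k ≤ K` and `n ≤ N`
-/

set_option autoImplicit false

open Finset Pool.Agent.H3.LC

namespace Pool.Agent.H3.LU

/-- `k / log k ≤ (16/15) K / log K` for `2 ≤ k ≤ K` -/
theorem div_log_le {k K : ℕ} (hk : 2 ≤ k) (hkK : k ≤ K) :
    (k : ℝ) / Real.log k ≤ 16 / 15 * ((K : ℝ) / Real.log K) := by
  have hk2 : (2 : ℝ) ≤ k := by exact_mod_cast hk
  have hkK' : (k : ℝ) ≤ K := by exact_mod_cast hkK
  have hlk : 0 < Real.log k := Real.log_pos (by linarith)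
  have hlK : 0 < Real.log K := Real.log_pos (by linarith)
  have hl2 := Real.log_two_gt_d9
  have he := Real.exp_one_lt_d9
  have he' := Real.exp_one_gt_d9
  -- `K / log K ≥ e` and `K / log K ≥ k / log k` for `k ≥ e`
  rw [← mul_div_assoc, div_le_div_iff₀ hlk hlK]
  rcases Nat.lt_or_ge k 3 with h3 | h3
  · have hk' : k = 2 := by omega
    subst hk'
    push_cast
    -- log K ≤ K / e
    have h1 : Real.log K ≤ K / Real.exp 1 := by
      have h := Real.log_le_sub_one_of_pos (x := K / Real.exp 1) (by positivity)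
      rw [Real.log_div (by linarith) (Real.exp_pos 1).ne', Real.log_exp] at h
      linarith
    have h2 : 2 * Real.log K ≤ 2 * (K / Real.exp 1) := by linarith
    refine h2.trans ?_
    rw [← mul_div_assoc, div_le_iff₀ (Real.exp_pos 1)]
    have h4 : (2 : ℝ) ≤ 16 / 15 * Real.log 2 * Real.exp 1 := by nlinarith
    nlinarith
  · have h3' : Real.exp 1 ≤ k := by
      have : (3 : ℝ) ≤ k := by exact_mod_cast h3
      linarith
    have h1 := Real.log_div_self_antitoneOn (Set.mem_ofPred_eq ▸ h3' : (k : ℝ) ∈ {x : ℝ | Real.exp 1 ≤ x})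
      (h3'.trans hkK' : (K : ℝ) ∈ {x : ℝ | Real.exp 1 ≤ x}) hkK'
    rw [div_le_div_iff₀ (by linarith) (by linarith)] at h1
    nlinarith

theorem sol_one {n m : ℕ} : ¬ Sol n 1 m := by
  rintro ⟨_, h1, h2⟩
  unfold M at h2
  rw [Icc_self, Icc_self, lcm_singleton, lcm_singleton] at h2
  simp only [id, normalize_eq] at h2
  omega

/-- the number of all solutions with `k ≤ K`, `n ≤ N` -/
theorem triples {K N : ℕ} (hK : 2 ≤ K) (hN : 2 ≤ N) (s : Finset (ℕ × ℕ × ℕ))
    (hs : ∀ n m k, (n, m, k) ∈ s → n ≤ N ∧ k ≤ K ∧ Sol n k m) :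
    (s.card : ℝ) ≤ Real.exp (120 * ((K : ℝ) / Real.log K)) * Real.log N := by
  classical
  have hK2 : (2 : ℝ) ≤ K := by exact_mod_cast hK
  have hN2 : (2 : ℝ) ≤ N := by exact_mod_cast hN
  have hlK : 0 < Real.log K := Real.log_pos (by linarith)
  have hlN : 0 < Real.log N := Real.log_pos (by linarith)
  set T : ℝ := (K : ℝ) / Real.log K with hT
  have hT0 : 0 ≤ T := by positivity
  have h1 : s.card ≤ ∑ k ∈ Icc 2 K, (sols k N).card := by
    have h2 : s ⊆ (Icc 2 K).biUnion (fun k => (sols k N).image (fun p => (p.1, p.2, k))) := by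
      rintro ⟨n, m, k⟩ h
      obtain ⟨h3, h4, h5⟩ := hs n m k h
      rw [mem_biUnion]
      refine ⟨k, ?_, ?_⟩
      · rw [mem_Icc]
        refine ⟨?_, h4⟩
        by_contra hcon
        have h6 : k = 1 := by have := h5.1; omega
        subst h6
        exact sol_one h5
      · rw [mem_image]
        exact ⟨(n, m), mem_sols.2 ⟨h3, h5⟩, rfl⟩
    refine (card_le_card h2).trans (card_biUnion_le.trans ?_)
    exact sum_le_sum fun k _ => card_image_le
  have h2 : (s.card : ℝ) ≤ ∑ k ∈ Icc 2 K, ((sols k N).card : ℝ) := by exact_mod_cast h1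
  have h3 : ∀ k ∈ Icc 2 K, ((sols k N).card : ℝ) ≤ Real.exp (101 * T) * Real.log N := by
    intro k hk
    rw [mem_Icc] at hk
    refine (card_sols_le hk.1 hN).trans (mul_le_mul_of_nonneg_right ?_ hlN.le)
    refine Real.exp_le_exp.2 ?_
    have := div_log_le hk.1 hk.2
    rw [← hT] at this
    linarith
  have h4 := sum_le_sum h3
  rw [sum_const, nsmul_eq_mul, Nat.card_Icc] at h4
  have h5 : ((K + 1 - 2 : ℕ) : ℝ) ≤ Real.exp (16 * T) := by
    have e1 : ((K + 1 - 2 : ℕ) : ℝ) ≤ K := by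
      have : K + 1 - 2 ≤ K := by omega
      exact_mod_cast this
    refine e1.trans ?_
    have e2 : (K : ℝ) = Real.exp (Real.log K) := (Real.exp_log (by linarith)).symm
    calc (K : ℝ) = Real.exp (Real.log K) := e2
      _ ≤ Real.exp (16 * T) := by
        refine Real.exp_le_exp.2 ?_
        have e3 := log_sq_le (by linarith : (1 : ℝ) ≤ (K : ℝ))
        have e4 : Real.sqrt K ≤ K := by
          have h0 := Real.sqrt_nonneg (K : ℝ)
          have h1 := Real.mul_self_sqrt (by linarith : (0 : ℝ) ≤ (K : ℝ))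
          have h2 : 1 ≤ Real.sqrt K := Real.one_le_sqrt.2 (by linarith)
          nlinarith
        rw [hT, ← mul_div_assoc, le_div_iff₀ hlK]
        nlinarith
  calc (s.card : ℝ) ≤ ∑ k ∈ Icc 2 K, ((sols k N).card : ℝ) := h2
    _ ≤ ((K + 1 - 2 : ℕ) : ℝ) * (Real.exp (101 * T) * Real.log N) := h4
    _ ≤ Real.exp (16 * T) * (Real.exp (101 * T) * Real.log N) :=
        mul_le_mul_of_nonneg_right h5 (by positivity)
    _ = Real.exp (117 * T) * Real.log N := by
        rw [← mul_assoc, ← Real.exp_add]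
        congr 2
        ring
    _ ≤ Real.exp (120 * T) * Real.log N := by
        refine mul_le_mul_of_nonneg_right (Real.exp_le_exp.2 ?_) hlN.le
        linarith

end Pool.Agent.H3.LU
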