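import Pool.Agent.H3.LU.Larger

/-!
# LU Mult: how often can a value `M n k` be taken
-/

set_option autoImplicit false

open Finset Pool.Agent.H3.LC

namespace Pool.Agent.H3.LU

/-- the prime powers `q > k` dividing `M n k` -/
noncomputable def QQ (n k : ℕ) : Finset ℕ :=
  (M n k).divisors.filter (fun q => IsPrimePow q ∧ k < q)

/-- the mass -/
noncomputable def TT (n k : ℕ) : ℝ := ∑ q ∈ QQ n k, ArithmeticFunction.vonMangoldt q

theorem M_ne_zero (n k : ℕ) : M n k ≠ 0 := by
  unfold M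
  rw [Ne, Finset.lcm_eq_zero_iff]
  rintro ⟨x, hx, h0⟩
  rw [mem_Icc] at hx
  have h1 : x = 0 := h0
  omega

theorem TT_nonneg (n k : ℕ) : 0 ≤ TT n k :=
  sum_nonneg fun _ _ => ArithmeticFunction.vonMangoldt_nonneg

theorem M_dvd_P (n k : ℕ) : M n k ∣ P n k := by
  unfold M P
  rw [Nat.ascFactorial_eq_prod_range]
  apply Finset.lcm_dvd
  intro x hx
  rw [mem_Icc] at hx
  have h1 : x - (n + 1) ∈ range k := mem_range.2 (by omega)
  have h2 := Finset.dvd_prod_of_mem (fun i => n + 1 + i) h1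
  have h3 : n + 1 + (x - (n + 1)) = x := by omega
  simp only [h3] at h2
  exact h2

theorem P_le_pow (n k : ℕ) : P n k ≤ (n + k) ^ k := by
  unfold P
  rw [Nat.ascFactorial_eq_prod_range]
  calc ∏ i ∈ range k, (n + 1 + i) ≤ ∏ _i ∈ range k, (n + k) :=
        prod_le_prod' fun i hi => by rw [mem_range] at hi; omega
    _ = (n + k) ^ k := by rw [prod_const, card_range]

theorem TT_le (n k : ℕ) : TT n k ≤ k * Real.log (n + k + 1) := by
  have h1 : TT n k ≤ Real.log (M n k) := by
    rw [← ArithmeticFunction.vonMangoldt_sum]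
    exact sum_le_sum_of_subset_of_nonneg (filter_subset _ _)
      fun _ _ _ => ArithmeticFunction.vonMangoldt_nonneg
  have h2 : M n k ≤ (n + k) ^ k := (Nat.le_of_dvd (P_pos n k) (M_dvd_P n k)).trans (P_le_pow n k)
  have h3 : (M n k : ℝ) ≤ ((n : ℝ) + k + 1) ^ k := by
    have h4 : (M n k : ℝ) ≤ ((n : ℝ) + k) ^ k := by exact_mod_cast h2
    exact h4.trans (pow_le_pow_left₀ (by positivity) (by linarith) k)
  have h5 := Real.log_le_log (Nat.cast_pos.2 (Nat.pos_of_ne_zero (M_ne_zero n k))) h3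
  rw [Real.log_pow] at h5
  linarith

theorem pow_le_choose (n k : ℕ) : (n + k) ^ k ≤ k ^ k * (n + k).choose k := by
  have h1 : (n + k) ^ k * k.factorial ≤ k ^ k * P n k := by
    unfold P
    rw [Nat.ascFactorial_eq_prod_range, ← prod_range_add_one_eq_factorial]
    have e1 : (n + k) ^ k = ∏ _i ∈ range k, (n + k) := by rw [prod_const, card_range]
    have e2 : k ^ k = ∏ _i ∈ range k, k := by rw [prod_const, card_range]
    rw [e1, e2, ← prod_mul_distrib, ← prod_mul_distrib]
    refine prod_le_prod' fun i hi => ?_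
    rw [mem_range] at hi
    nlinarith [Nat.mul_le_mul_left n hi]
  have h2 : P n k = k.factorial * (n + k).choose k := by
    unfold P
    rw [Nat.ascFactorial_eq_factorial_mul_choose]
  rw [h2] at h1
  have h3 : (n + k) ^ k * k.factorial ≤ (k ^ k * (n + k).choose k) * k.factorial := by
    calc (n + k) ^ k * k.factorial ≤ _ := h1
      _ = _ := by ring
  exact Nat.le_of_mul_le_mul_right h3 (Nat.factorial_pos k)

theorem le_TT {n k : ℕ} (hk : 1 ≤ k) :
    k * Real.log (((n : ℝ) + k) / k) - (Real.log 4 + 4) * k ≤ TT n k := by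
  classical
  have hk0 : (0 : ℝ) < k := by exact_mod_cast hk
  have hn0 : (0 : ℝ) ≤ n := Nat.cast_nonneg n
  have h1 : Real.log (M n k) ≤ TT n k + (Real.log 4 + 4) * k := by
    rw [← ArithmeticFunction.vonMangoldt_sum,
      ← sum_filter_add_sum_filter_not (M n k).divisors (fun q => IsPrimePow q ∧ k < q)]
    refine add_le_add le_rfl ?_
    have h2 := Chebyshev.psi_le_const_mul_self (x := (k : ℝ)) (Nat.cast_nonneg k)
    refine le_trans ?_ h2
    unfold Chebyshev.psi
    rw [Nat.floor_natCast]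
    have h3 : ∑ q ∈ (M n k).divisors.filter (fun q => ¬ (IsPrimePow q ∧ k < q)),
        ArithmeticFunction.vonMangoldt q =
        ∑ q ∈ ((M n k).divisors.filter (fun q => ¬ (IsPrimePow q ∧ k < q))).filter IsPrimePow,
        ArithmeticFunction.vonMangoldt q := by
      refine (sum_filter_of_ne fun q _ hne => ?_).symm
      by_contra hcon
      exact hne (ArithmeticFunction.vonMangoldt_eq_zero_iff.2 hcon)
    rw [h3]
    refine sum_le_sum_of_subset_of_nonneg ?_ fun _ _ _ => ArithmeticFunction.vonMangoldt_nonneg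
    intro q hq
    rw [mem_filter, mem_filter] at hq
    rw [mem_Ioc]
    refine ⟨hq.2.pos, ?_⟩
    by_contra hcon
    exact hq.1.2 ⟨hq.2, not_le.1 hcon⟩
  have h2 : ((n : ℝ) + k) ^ k ≤ (k : ℝ) ^ k * M n k := by
    have h3 : (n + k) ^ k ≤ k ^ k * M n k :=
      (pow_le_choose n k).trans (Nat.mul_le_mul_left _
        (Nat.le_of_dvd (Nat.pos_of_ne_zero (M_ne_zero n k)) (choose_dvd_M n k)))
    exact_mod_cast h3
  have h3 : k * Real.log (((n : ℝ) + k) / k) ≤ Real.log (M n k) := by
    rw [← Real.log_pow, div_pow]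
    refine Real.log_le_log (by positivity) ?_
    rw [div_le_iff₀ (by positivity)]
    linarith
  linarith

/-- the thickened set -/
def thick (H : ℕ) (S : Finset ℕ) : Finset ℕ := (S ×ˢ range H).image (fun p => p.1 + p.2)

theorem card_thick {S : Finset ℕ} {k H : ℕ} (hH : H ≤ k)
    (hS : ∀ x ∈ S, ∀ y ∈ S, x < y → x + k ≤ y) : (thick H S).card = S.card * H := by
  unfold thick
  rw [card_image_of_injOn, card_product, card_range]
  rintro ⟨x, t⟩ hx ⟨y, t'⟩ hy hxy
  rw [mem_coe, mem_product, mem_range] at hx hy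
  simp only at hx hy hxy
  rcases lt_trichotomy x y with h | h | h
  · have := hS x hx.1 y hy.1 h
    omega
  · subst h
    rw [Prod.mk.injEq]
    exact ⟨rfl, by omega⟩
  · have := hS y hy.1 x hx.1 h
    omega

theorem classes {S : Finset ℕ} {n k H q : ℕ} (hS : ∀ m ∈ S, M m k = M n k)
    (hq : q ∈ QQ n k) : ((thick H S).image (fun x => x % q)).card ≤ k + H - 1 := by
  classical
  unfold QQ at hq
  rw [mem_filter, Nat.mem_divisors] at hq
  obtain ⟨⟨hqM, _⟩, hpp, hkq⟩ := hq
  have h1 : (thick H S).image (fun x => x % q) ⊆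
      (range (k + H - 1)).image (fun c => (c + (q - k)) % q) := by
    intro z hz
    rw [mem_image] at hz
    obtain ⟨x, hx, rfl⟩ := hz
    unfold thick at hx
    rw [mem_image] at hx
    obtain ⟨⟨m, t⟩, hmt, rfl⟩ := hx
    rw [mem_product, mem_range] at hmt
    simp only at hmt
    have h2 : q ∣ M m k := by rw [hS m hmt.1]; exact hqM
    rw [← u_pos_iff hpp] at h2
    unfold u at h2
    rw [card_pos] at h2
    obtain ⟨y, hy⟩ := h2
    rw [mem_filter, mem_Icc] at hy
    obtain ⟨⟨hy1, hy2⟩, hy3⟩ := hy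
    rw [mem_image]
    refine ⟨t + (m + k - y), ?_, ?_⟩
    · rw [mem_range]
      omega
    · change (t + (m + k - y) + (q - k)) % q = (m + t) % q
      have e1 : t + (m + k - y) + (q - k) + y = (m + t) + q := by omega
      have h3 : (t + (m + k - y) + (q - k)) + y ≡ (m + t) + y [MOD q] := by
        rw [e1]
        have h4 : q ≡ y [MOD q] := by
          rw [Nat.ModEq, Nat.mod_self, Nat.mod_eq_zero_of_dvd hy3]
        exact Nat.ModEq.add_left _ h4
      exact Nat.ModEq.add_right_cancel' y h3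
  refine (card_le_card h1).trans (card_image_le.trans ?_)
  rw [card_range]

/-- one cell -/
theorem cell {S : Finset ℕ} {n k H : ℕ} {L : ℝ} (hk : 1 ≤ k) (hH1 : 1 ≤ H) (hHk : H ≤ k)
    (hS : ∀ m ∈ S, M m k = M n k) (hsep : ∀ x ∈ S, ∀ y ∈ S, x < y → x + k ≤ y)
    (hL : 2 * (H : ℝ) ≤ L) (hd : ∀ x ∈ S, ∀ y ∈ S, (x : ℝ) - y ≤ L / 2) :
    (S.card : ℝ) * H * (TT n k / (k + H - 1 : ℕ) - Real.log L) ≤ TT n k := by
  have hH1' : (1 : ℝ) ≤ H := by exact_mod_cast hH1
  have h := larger_sieve (A := thick H S) (Q := QQ n k) (v := k + H - 1) (L := L) (by linarith)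
    (by omega) ?_ (fun q hq => classes hS hq)
  · rw [card_thick hHk hsep] at h
    push_cast at h ⊢
    unfold TT
    exact h
  · intro x hx y hy
    unfold thick at hx hy
    rw [mem_image] at hx hy
    obtain ⟨⟨a, s⟩, ha, rfl⟩ := hx
    obtain ⟨⟨b, t⟩, hb, rfl⟩ := hy
    rw [mem_product, mem_range] at ha hb
    simp only at ha hb
    have h1 := hd a ha.1 b hb.1
    have h2 : (s : ℝ) ≤ H := by exact_mod_cast ha.2.le
    have h3 : (0 : ℝ) ≤ t := Nat.cast_nonneg t
    push_cast
    linarith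

end Pool.Agent.H3.LU
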