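import Pool.Agent.H3.LU.Mult

/-!
# LU MultMain: at most `C k l min(k, l)` disjoint blocks with the same lcm, `l = log (n+k+1)`
-/

set_option autoImplicit false

open Finset Pool.Agent.H3.LC

namespace Pool.Agent.H3.LU

theorem fiber_lt {n m k : ℕ} (hk : 1 ≤ k) (h : M m k = M n k) : m < 256 * (n + k) := by
  rcases le_or_gt (n + k) m with h1 | h1
  · have := sol_ratio (⟨hk, h1, h⟩ : Sol n k m)
    omega
  · omega

theorem exp_bound : 4 * Real.exp (11 / 2) ≤ 1000 := by
  have h1 : Real.exp (1 / 2) ≤ 1.65 := by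
    have h2 : Real.exp (1 / 2) ^ 2 = Real.exp 1 := by
      rw [← Real.exp_nat_mul]
      norm_num
    have h3 := Real.exp_one_lt_d9
    have h4 : 0 < Real.exp (1 / 2) := Real.exp_pos _
    nlinarith
  have h2 : Real.exp (11 / 2) = Real.exp (1 / 2) ^ 11 := by
    rw [← Real.exp_nat_mul]
    norm_num
  rw [h2]
  have h3 : Real.exp (1 / 2) ^ 11 ≤ 1.65 ^ 11 := pow_le_pow_left₀ (Real.exp_pos _).le h1 11
  have h4 : (1.65 : ℝ) ^ 11 ≤ 250 := by norm_num
  linarith

/-- lower bound for the admissible length -/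
theorem length_ge {n k : ℕ} (hk : 1 ≤ k) :
    ((n : ℝ) + k) ≤ 1000 * k * Real.exp (TT n k / k - 3 / 2) := by
  have hk0 : (0 : ℝ) < k := by exact_mod_cast hk
  have hn0 : (0 : ℝ) ≤ n := Nat.cast_nonneg n
  have h1 := le_TT (n := n) hk
  have h2 : Real.log (((n : ℝ) + k) / k) ≤ TT n k / k + (Real.log 4 + 4) := by
    have h3 : Real.log (((n : ℝ) + k) / k) * k ≤ (TT n k / k + (Real.log 4 + 4)) * k := by
      have e : (TT n k / k + (Real.log 4 + 4)) * k = TT n k + (Real.log 4 + 4) * k := by
        field_simp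
      rw [e]
      linarith
    exact le_of_mul_le_mul_right h3 hk0
  have h3 : ((n : ℝ) + k) / k ≤ Real.exp (TT n k / k + (Real.log 4 + 4)) := by
    rw [← Real.log_le_iff_le_exp (by positivity)]
    exact h2
  have h4 : Real.exp (TT n k / k + (Real.log 4 + 4)) =
      (4 * Real.exp (11 / 2)) * Real.exp (TT n k / k - 3 / 2) := by
    have e : TT n k / k + (Real.log 4 + 4) = Real.log 4 + 11 / 2 + (TT n k / k - 3 / 2) := by ring
    rw [e, Real.exp_add, Real.exp_add, Real.exp_log (by norm_num)]
  rw [h4] at h3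
  have h5 : ((n : ℝ) + k) / k ≤ 1000 * Real.exp (TT n k / k - 3 / 2) :=
    h3.trans (mul_le_mul_of_nonneg_right exp_bound (Real.exp_pos _).le)
  rw [div_le_iff₀ hk0] at h5
  linarith

/-- the main theorem -/
theorem multiplicity {n k : ℕ} (hk : 1 ≤ k) (s : Finset ℕ) (hs : ∀ m ∈ s, M m k = M n k)
    (hsep : ∀ x ∈ s, ∀ y ∈ s, x < y → x + k ≤ y) :
    (s.card : ℝ) ≤ 1100000 * k * Real.log (n + k + 1) * min (k : ℝ) (Real.log (n + k + 1)) := by
  classical
  set l : ℝ := Real.log (n + k + 1) with hl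
  have hk0 : (0 : ℝ) < k := by exact_mod_cast hk
  have hk1 : (1 : ℝ) ≤ k := by exact_mod_cast hk
  have hn0 : (0 : ℝ) ≤ n := Nat.cast_nonneg n
  have hl2 := Real.log_two_gt_d9
  have hl0 : 0.69 ≤ l := by
    have : Real.log 2 ≤ l := Real.log_le_log (by norm_num) (by linarith)
    linarith
  set mn : ℝ := min (k : ℝ) l with hmn
  have hmn0 : 0.69 ≤ mn := le_min (by linarith) hl0
  set H : ℕ := ⌊(k : ℝ) / (2 * l)⌋₊ + 1 with hH
  have hHlo : (k : ℝ) / (2 * l) ≤ H := by
    rw [hH]
    push_cast
    exact (Nat.lt_floor_add_one _).le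
  have hHup : (H : ℝ) - 1 ≤ (k : ℝ) / (2 * l) := by
    rw [hH]
    push_cast
    have := Nat.floor_le (a := (k : ℝ) / (2 * l)) (by positivity)
    linarith
  have hH1 : 1 ≤ H := by omega
  have hH1' : (1 : ℝ) ≤ H := by exact_mod_cast hH1
  have hHk : H ≤ k := by
    have h1 : (k : ℝ) / (2 * l) < k := by
      rw [div_lt_iff₀ (by linarith)]
      nlinarith
    have h2 : ⌊(k : ℝ) / (2 * l)⌋₊ < k := (Nat.floor_lt (by positivity)).2 h1
    omega
  have hHk' : (H : ℝ) ≤ k := by exact_mod_cast hHk
  set L : ℝ := Real.exp (TT n k / k - 3 / 2) with hL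
  have hLpos : 0 < L := Real.exp_pos _
  have hlen : ((n : ℝ) + k) ≤ 1000 * k * L := length_ge hk
  have hT0 := TT_nonneg n k
  have hTl : TT n k ≤ k * l := TT_le n k
  rcases lt_or_ge L (2 * (H : ℝ)) with hcase | hcase
  · -- short range: trivial bound
    have h1 : s.card ≤ (range (256 * (n + k) / k + 1)).card := by
      refine card_le_card_of_injOn (fun m => m / k) ?_ ?_
      · intro m hm
        rw [coe_range, Set.mem_Iio]
        exact Nat.lt_succ_of_le (Nat.div_le_div_right (fiber_lt hk (hs m hm)).le)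
      · intro x hx y hy hxy
        simp only at hxy
        have e1 := Nat.div_add_mod x k
        have e2 := Nat.div_add_mod y k
        have l1 := Nat.mod_lt x (by omega : 0 < k)
        have l2 := Nat.mod_lt y (by omega : 0 < k)
        rw [hxy] at e1
        rcases lt_trichotomy x y with h | h | h
        · have := hsep x hx y hy h
          omega
        · exact h
        · have := hsep y hy x hx h
          omega
    rw [card_range] at h1
    have h2 : (s.card : ℝ) ≤ 256 * (n + k) / k + 1 := by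
      have h3 : ((256 * (n + k) / k : ℕ) : ℝ) ≤ ((256 * (n + k) : ℕ) : ℝ) / k := Nat.cast_div_le
      have h4 : (s.card : ℝ) ≤ ((256 * (n + k) / k : ℕ) : ℝ) + 1 := by exact_mod_cast h1
      push_cast at h3
      linarith
    have h3 : 256 * ((n : ℝ) + k) / k ≤ 512000 * k := by
      rw [div_le_iff₀ hk0]
      have : (n : ℝ) + k ≤ 1000 * k * (2 * k) :=
        hlen.trans (mul_le_mul_of_nonneg_left (by linarith) (by positivity))
      nlinarith
    have h4 : (0.476 : ℝ) ≤ l * mn := by nlinarith
    calc (s.card : ℝ) ≤ 512000 * k + 1 := h2.trans (by linarith)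
      _ ≤ 512001 * k := by linarith
      _ ≤ 1100000 * k * (l * mn) := by nlinarith
      _ = 1100000 * k * l * mn := by ring
  · -- cells
    have hcell : ∀ c ∈ s.image (fun m : ℕ => ⌊2 * (m : ℝ) / L⌋₊),
        ((s.filter (fun m : ℕ => ⌊2 * (m : ℝ) / L⌋₊ = c)).card : ℝ) ≤ 2 * l * mn := by
      intro c _
      set S := s.filter (fun m : ℕ => ⌊2 * (m : ℝ) / L⌋₊ = c) with hS
      have hSs : ∀ m ∈ S, M m k = M n k := fun m hm => hs m (mem_filter.1 hm).1
      have hSsep : ∀ x ∈ S, ∀ y ∈ S, x < y → x + k ≤ y :=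
        fun x hx y hy h => hsep x (mem_filter.1 hx).1 y (mem_filter.1 hy).1 h
      have hd : ∀ x ∈ S, ∀ y ∈ S, (x : ℝ) - y ≤ L / 2 := by
        intro x hx y hy
        have e1 := (mem_filter.1 hx).2
        have e2 := (mem_filter.1 hy).2
        have h1 := Nat.lt_floor_add_one (2 * (x : ℝ) / L)
        have h2 := Nat.floor_le (a := 2 * (y : ℝ) / L) (by positivity)
        rw [e1] at h1
        rw [e2] at h2
        have h3 : 2 * (x : ℝ) / L < 2 * (y : ℝ) / L + 1 := by linarith
        have h4 : 2 * (x : ℝ) < 2 * (y : ℝ) + L := by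
          have h5 := mul_lt_mul_of_pos_right h3 hLpos
          rw [add_mul, div_mul_cancel₀ _ hLpos.ne', div_mul_cancel₀ _ hLpos.ne', one_mul] at h5
          exact h5
        linarith
      have h1 := cell hk hH1 hHk hSs hSsep hcase hd
      have hcast : ((k + H - 1 : ℕ) : ℝ) = k + (H - 1) := by
        rw [Nat.cast_sub (by omega), Nat.cast_add, Nat.cast_one]
        ring
      rw [hcast, hL, Real.log_exp] at h1
      have h2 : 1 ≤ TT n k / (k + ((H : ℝ) - 1)) - (TT n k / k - 3 / 2) := by
        have hden : (0 : ℝ) < k + ((H : ℝ) - 1) := by linarith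
        have h3 : TT n k / k - TT n k / (k + ((H : ℝ) - 1)) =
            TT n k / k * (((H : ℝ) - 1) / (k + ((H : ℝ) - 1))) := by
          field_simp
          ring
        have h4 : ((H : ℝ) - 1) / (k + ((H : ℝ) - 1)) ≤ 1 / (2 * l) := by
          rw [div_le_div_iff₀ hden (by linarith)]
          have h5 : ((H : ℝ) - 1) * (2 * l) ≤ k := by
            have := mul_le_mul_of_nonneg_right hHup (by linarith : 0 ≤ 2 * l)
            rwa [div_mul_cancel₀ _ (by linarith : 2 * l ≠ 0)] at this
          linarith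
        have h5 : TT n k / k ≤ l := by
          rw [div_le_iff₀ hk0]
          linarith
        have h6 : TT n k / k * (((H : ℝ) - 1) / (k + ((H : ℝ) - 1))) ≤ l * (1 / (2 * l)) :=
          mul_le_mul h5 h4 (div_nonneg (by linarith) hden.le) (by linarith)
        have h7 : l * (1 / (2 * l)) = 1 / 2 := by
          have : l ≠ 0 := by linarith
          field_simp
        rw [h7, ← h3] at h6
        linarith
      have h3 : (S.card : ℝ) * H ≤ k * l := by
        have h4 : (S.card : ℝ) * H * 1 ≤ (S.card : ℝ) * H *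
            (TT n k / (k + ((H : ℝ) - 1)) - (TT n k / k - 3 / 2)) :=
          mul_le_mul_of_nonneg_left h2 (by positivity)
        linarith
      have h4 : (S.card : ℝ) ≤ k * l := by
        have : (S.card : ℝ) * 1 ≤ (S.card : ℝ) * H :=
          mul_le_mul_of_nonneg_left hH1' (Nat.cast_nonneg _)
        linarith
      have h5 : (S.card : ℝ) ≤ 2 * l * l := by
        have h6 : (S.card : ℝ) * ((k : ℝ) / (2 * l)) ≤ k * l :=
          (mul_le_mul_of_nonneg_left hHlo (Nat.cast_nonneg _)).trans h3
        have h7 : (S.card : ℝ) * k ≤ (2 * l * l) * k := by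
          have h8 := mul_le_mul_of_nonneg_right h6 (by linarith : 0 ≤ 2 * l)
          have e : (S.card : ℝ) * ((k : ℝ) / (2 * l)) * (2 * l) = S.card * k := by
            have : l ≠ 0 := by linarith
            field_simp
          rw [e] at h8
          linarith
        exact le_of_mul_le_mul_right h7 hk0
      rw [hmn]
      rcases le_total (k : ℝ) l with hkl | hkl
      · rw [min_eq_left hkl]
        nlinarith
      · rw [min_eq_right hkl]
        exact h5
    have himg : ((s.image (fun m : ℕ => ⌊2 * (m : ℝ) / L⌋₊)).card : ℝ) ≤ 512001 * k := by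
      have h1 : (s.image (fun m : ℕ => ⌊2 * (m : ℝ) / L⌋₊)) ⊆ range (⌊512000 * (k : ℝ)⌋₊ + 1) := by
        intro c hc
        rw [mem_image] at hc
        obtain ⟨m, hm, rfl⟩ := hc
        rw [mem_range]
        refine Nat.lt_succ_of_le (Nat.floor_le_floor ?_)
        rw [div_le_iff₀ hLpos]
        have h2 : (m : ℝ) ≤ 256 * ((n : ℝ) + k) := by
          have := fiber_lt hk (hs m hm)
          exact_mod_cast this.le
        nlinarith
      have h2 := card_le_card h1
      rw [card_range] at h2
      have h3 : ((s.image (fun m : ℕ => ⌊2 * (m : ℝ) / L⌋₊)).card : ℝ) ≤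
          (⌊512000 * (k : ℝ)⌋₊ : ℝ) + 1 := by exact_mod_cast h2
      have h4 := Nat.floor_le (a := 512000 * (k : ℝ)) (by positivity)
      linarith
    have h1 : (s.card : ℝ) = ∑ c ∈ s.image (fun m : ℕ => ⌊2 * (m : ℝ) / L⌋₊),
        ((s.filter (fun m : ℕ => ⌊2 * (m : ℝ) / L⌋₊ = c)).card : ℝ) := by
      rw [card_eq_sum_card_image (fun m : ℕ => ⌊2 * (m : ℝ) / L⌋₊) s]
      push_cast
      rfl
    rw [h1]
    refine (sum_le_sum hcell).trans ?_
    rw [sum_const, nsmul_eq_mul]
    have h2 : 0 ≤ 2 * l * mn := by positivity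
    calc ((s.image (fun m : ℕ => ⌊2 * (m : ℝ) / L⌋₊)).card : ℝ) * (2 * l * mn)
        ≤ 512001 * k * (2 * l * mn) := mul_le_mul_of_nonneg_right himg h2
      _ = 1024002 * (k * (l * mn)) := by ring
      _ ≤ 1100000 * (k * (l * mn)) := by
          refine mul_le_mul_of_nonneg_right (by norm_num) ?_
          positivity
      _ = 1100000 * k * l * mn := by ring

end Pool.Agent.H3.LU
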